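import Pool.Agent.X146.Str.Cir

set_option autoImplicit false
open MeasureTheory Metric Set Filter Topology Real

/-! The string construction over an ellipse gives the confocal ellipses. -/

namespace Pool.Agent.X146.Str

open Pool.Agent.Y508

/-- quadratic form -/
noncomputable def qq (α β γ x : ℝ) : ℝ :=
  α * Real.cos x ^ 2 + 2 * β * (Real.cos x * Real.sin x) + γ * Real.sin x ^ 2
/-- its value on the orthogonal vector -/
noncomputable def rr (α β γ x : ℝ) : ℝ :=
  α * Real.sin x ^ 2 - 2 * β * (Real.cos x * Real.sin x) + γ * Real.cos x ^ 2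
/-- half of its derivative -/
noncomputable def ww (α β γ x : ℝ) : ℝ :=
  (γ - α) * (Real.cos x * Real.sin x) + β * (Real.cos x ^ 2 - Real.sin x ^ 2)

section

variable {α β γ : ℝ}

theorem qq_add (t x : ℝ) : qq (α + t) β (γ + t) x = qq α β γ x + t := by
  have h := Real.sin_sq_add_cos_sq x
  unfold qq
  linear_combination t * h

theorem rr_add (t x : ℝ) : rr (α + t) β (γ + t) x = rr α β γ x + t := by
  have h := Real.sin_sq_add_cos_sq x
  unfold rr
  linear_combination t * h

theorem ww_add (t x : ℝ) : ww (α + t) β (γ + t) x = ww α β γ x := by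
  unfold ww
  ring

theorem qr (x : ℝ) : qq α β γ x * rr α β γ x - ww α β γ x ^ 2 = α * γ - β ^ 2 := by
  have h := Real.sin_sq_add_cos_sq x
  unfold qq rr ww
  linear_combination ((α * γ - β ^ 2) * (Real.sin x ^ 2 + Real.cos x ^ 2 + 1)) * h

theorem qq_shift (m d : ℝ) : qq α β γ (m + d) = qq α β γ m * Real.cos d ^ 2
    + 2 * ww α β γ m * (Real.sin d * Real.cos d) + rr α β γ m * Real.sin d ^ 2 := by
  unfold qq rr ww
  rw [Real.cos_add, Real.sin_add]
  ring

theorem qq_pi (x : ℝ) : qq α β γ (x + π) = qq α β γ x := by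
  unfold qq
  rw [Real.cos_add_pi, Real.sin_add_pi]
  ring

theorem qq_half (x : ℝ) : qq α β γ (x + π / 2) = rr α β γ x := by
  unfold qq rr
  rw [Real.cos_add_pi_div_two, Real.sin_add_pi_div_two]
  ring

theorem qq_deriv (x : ℝ) : HasDerivAt (qq α β γ) (2 * ww α β γ x) x := by
  unfold qq ww
  have hc := Real.hasDerivAt_cos x
  have hs' := Real.hasDerivAt_sin x
  have h1 := (((hc.pow 2).const_mul α).add ((hc.mul hs').const_mul (2 * β))).add
    ((hs'.pow 2).const_mul γ)
  refine h1.congr_deriv ?_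
  simp
  ring

theorem disc_pos (h : ∀ x, 0 < qq α β γ x) : 0 < α ∧ 0 < γ ∧ 0 < α * γ - β ^ 2 := by
  have h0 := h 0
  have h1 := h (π / 2)
  simp only [qq, Real.cos_zero, Real.sin_zero, Real.cos_pi_div_two, Real.sin_pi_div_two] at h0 h1
  have ha : 0 < α := by linarith
  have hg : 0 < γ := by linarith
  refine ⟨ha, hg, ?_⟩
  have hv : (pt (-β) α : E2) ≠ 0 := by
    intro hz
    have := congrArg (fun x : E2 => x 1) hz
    simp only [pt_one] at this
    have h2 : α = 0 := this
    linarith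
  obtain ⟨φ, hφ⟩ := exists_pos_ev _ hv
  have n0 : 0 < ‖(pt (-β) α : E2)‖ := norm_pos_iff.2 hv
  set n := ‖(pt (-β) α : E2)‖
  have c0 : -β = n * Real.cos φ := by
    have := congrArg (fun x : E2 => x 0) hφ
    simpa [ev] using this
  have c1 : α = n * Real.sin φ := by
    have := congrArg (fun x : E2 => x 1) hφ
    simpa [ev] using this
  have h2 := h φ
  have h3 : 0 < n ^ 2 * qq α β γ φ := by positivity
  have h4 : n ^ 2 * qq α β γ φ = α * (-β) ^ 2 + 2 * β * ((-β) * α) + γ * α ^ 2 := by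
    unfold qq
    rw [c0]
    nth_rewrite 3 [c1]
    nth_rewrite 3 [c1]
    ring
  rw [h4] at h3
  have h5 : α * (-β) ^ 2 + 2 * β * ((-β) * α) + γ * α ^ 2 = α * (α * γ - β ^ 2) := by ring
  rw [h5] at h3
  exact (mul_pos_iff_of_pos_left ha).1 h3

end

/-- data of an elliptic body -/
structure IsE (B : Set E2) (c : E2) (α β γ : ℝ) : Prop where
  body : Body B
  sq : ∀ x, (hs B x - ip c x) ^ 2 = qq α β γ x

section

variable {B : Set E2} {c : E2} {α β γ : ℝ}

theorem IsE.e_pos (hE : IsE B c α β γ) (x : ℝ) : 0 < hs B x - ip c x := by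
  have h1 := hE.sq x
  have h2 := hE.sq (x + π)
  rw [qq_pi, ip_add_pi] at h2
  have h3 := width_pos hE.body x
  have h4 : (hs B (x + π) - -ip c x - (hs B x - ip c x)) *
      (hs B (x + π) - -ip c x + (hs B x - ip c x)) = 0 := by
    have : (hs B (x + π) - -ip c x) ^ 2 = (hs B x - ip c x) ^ 2 := by rw [h1, h2]
    linear_combination this
  rcases mul_eq_zero.1 h4 with h | h
  · linarith
  · exfalso
    linarith

theorem IsE.q_pos (hE : IsE B c α β γ) (x : ℝ) : 0 < qq α β γ x := by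
  rw [← hE.sq]
  have := hE.e_pos x
  positivity

theorem IsE.r_pos (hE : IsE B c α β γ) (x : ℝ) : 0 < rr α β γ x := by
  rw [← qq_half]
  exact hE.q_pos _

/-- determinant -/
noncomputable def Dl (α β γ t : ℝ) : ℝ := (α + t) * (γ + t) - β ^ 2

theorem Dl_eq (t x : ℝ) : Dl α β γ t = (qq α β γ x + t) * (rr α β γ x + t) - ww α β γ x ^ 2 := by
  have := qr (α := α + t) (β := β) (γ := γ + t) x
  rw [qq_add, rr_add, ww_add] at this
  unfold Dl
  linarith

theorem Dl_pos (hE : IsE B c α β γ) {t : ℝ} (ht : 0 ≤ t) : 0 < Dl α β γ t := by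
  obtain ⟨h1, h2, h3⟩ := disc_pos hE.q_pos
  unfold Dl
  nlinarith [mul_nonneg ht ht, mul_nonneg ht h1.le, mul_nonneg ht h2.le]

/-- `sin² δ` -/
noncomputable def sg (α β γ t x : ℝ) : ℝ := t * (qq α β γ x + t) / Dl α β γ t

theorem sg_lt (hE : IsE B c α β γ) {t : ℝ} (ht : 0 < t) (x : ℝ) :
    0 < sg α β γ t x ∧ sg α β γ t x < 1 ∧
      1 - sg α β γ t x = (Dl α β γ 0 + rr α β γ x * t) / Dl α β γ t := by
  have hD := Dl_pos hE ht.le
  have hD0 := Dl_pos hE (le_refl (0 : ℝ))
  have hq := hE.q_pos x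
  have hr := hE.r_pos x
  have h1 : 1 - sg α β γ t x = (Dl α β γ 0 + rr α β γ x * t) / Dl α β γ t := by
    have e0 := Dl_eq (α := α) (β := β) (γ := γ) 0 x
    have e1 := Dl_eq (α := α) (β := β) (γ := γ) t x
    unfold sg
    rw [eq_div_iff hD.ne', sub_mul, div_mul_cancel₀ _ hD.ne']
    rw [e0, e1]
    ring
  have h2 : 0 < 1 - sg α β γ t x := by
    rw [h1]; positivity
  refine ⟨?_, by linarith, h1⟩
  unfold sg
  positivity

/-- opening of the caps of the confocal ellipse -/
noncomputable def dt (α β γ t x : ℝ) : ℝ := Real.arcsin (Real.sqrt (sg α β γ t x))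

theorem dt_spec (hE : IsE B c α β γ) {t : ℝ} (ht : 0 < t) (x : ℝ) :
    0 < dt α β γ t x ∧ dt α β γ t x < π / 2 ∧ Real.sin (dt α β γ t x) ^ 2 = sg α β γ t x := by
  obtain ⟨h1, h2, -⟩ := sg_lt hE ht x
  have h3 : 0 < Real.sqrt (sg α β γ t x) := Real.sqrt_pos.2 h1
  have h4 : Real.sqrt (sg α β γ t x) < 1 := by
    rw [Real.sqrt_lt' one_pos]; linarith
  refine ⟨Real.arcsin_pos.2 h3, Real.arcsin_lt_pi_div_two.2 h4, ?_⟩
  unfold dt
  rw [Real.sin_arcsin (by linarith) h4.le, Real.sq_sqrt h1.le]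

/-- algebra behind Graves' theorem -/
theorem sq_id {t q r w s2 c2 sc D h e : ℝ} (hh : h ^ 2 = q + t) (hh0 : h ≠ 0)
    (hD : D = (q + t) * (r + t) - w ^ 2) (hs : s2 = t * (q + t) / D) (hD0 : D ≠ 0)
    (hcs : s2 + c2 = 1) (he : e = q * c2 + 2 * w * sc + r * s2) :
    e = h ^ 2 * c2 + 2 * w * sc + (w / h) ^ 2 * s2 := by
  have hq : q + t ≠ 0 := by rw [← hh]; positivity
  have h1 : (w / h) ^ 2 = w ^ 2 / (q + t) := by rw [div_pow, hh]
  rw [h1, hh, he]
  have h2 : s2 * D = t * (q + t) := by rw [hs]; field_simp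
  have h3 : c2 = 1 - s2 := by linarith
  rw [h3]
  have h4 : (q * (1 - s2) + 2 * w * sc + r * s2) - ((q + t) * (1 - s2) + 2 * w * sc
      + w ^ 2 / (q + t) * s2) = (s2 * D - t * (q + t)) / (q + t) := by
    rw [hD]
    field_simp
    ring
  have h5 : (s2 * D - t * (q + t)) / (q + t) = 0 := by rw [h2]; simp
  linarith

theorem e_shift (hE : IsE B c α β γ) {t : ℝ} (ht : 0 < t) (m : ℝ) :
    hs B (m + dt α β γ t m) - ip c (m + dt α β γ t m)
      = Real.sqrt (qq α β γ m + t) * Real.cos (dt α β γ t m)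
        + ww α β γ m / Real.sqrt (qq α β γ m + t) * Real.sin (dt α β γ t m) ∧
    hs B (m - dt α β γ t m) - ip c (m - dt α β γ t m)
      = Real.sqrt (qq α β γ m + t) * Real.cos (dt α β γ t m)
        - ww α β γ m / Real.sqrt (qq α β γ m + t) * Real.sin (dt α β γ t m) := by
  obtain ⟨d0, d1, d2⟩ := dt_spec hE ht m
  obtain ⟨g1, g2, g3⟩ := sg_lt hE ht m
  have hq := hE.q_pos m
  have hr := hE.r_pos m
  have hD := Dl_pos hE ht.le
  have hD0 := Dl_pos hE (le_refl (0 : ℝ))
  set d := dt α β γ t m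
  set h := Real.sqrt (qq α β γ m + t) with hh
  have hh2 : h ^ 2 = qq α β γ m + t := Real.sq_sqrt (by linarith)
  have hh0 : 0 < h := Real.sqrt_pos.2 (by linarith)
  have hc : 0 < Real.cos d := Real.cos_pos_of_mem_Ioo ⟨by linarith, d1⟩
  have hsn : 0 < Real.sin d := Real.sin_pos_of_pos_of_lt_pi d0 (by linarith [Real.pi_pos])
  have hcs := Real.sin_sq_add_cos_sq d
  have hcos2 : Real.cos d ^ 2 = (Dl α β γ 0 + rr α β γ m * t) / Dl α β γ t := by
    rw [← g3, ← d2]; linarith
  set κ := ww α β γ m / h with hκ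
  have hkh : κ * h = ww α β γ m := by rw [hκ]; field_simp
  -- squares
  have s1 : qq α β γ (m + d) = (h * Real.cos d + κ * Real.sin d) ^ 2 := by
    have := sq_id (t := t) (q := qq α β γ m) (r := rr α β γ m) (w := ww α β γ m)
      (s2 := Real.sin d ^ 2) (c2 := Real.cos d ^ 2) (sc := Real.sin d * Real.cos d)
      (D := Dl α β γ t) (h := h) (e := qq α β γ (m + d)) hh2 hh0.ne' (Dl_eq t m) d2 hD.ne' hcs
      (qq_shift m d)
    rw [this, ← hkh]
    have e : κ * h / h = κ := by field_simp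
    rw [e]
    ring
  have s2 : qq α β γ (m - d) = (h * Real.cos d - κ * Real.sin d) ^ 2 := by
    have e1 := qq_shift (α := α) (β := β) (γ := γ) m (-d)
    rw [Real.cos_neg, Real.sin_neg, neg_sq, ← sub_eq_add_neg] at e1
    have := sq_id (t := t) (q := qq α β γ m) (r := rr α β γ m) (w := ww α β γ m)
      (s2 := Real.sin d ^ 2) (c2 := Real.cos d ^ 2) (sc := -Real.sin d * Real.cos d)
      (D := Dl α β γ t) (h := h) (e := qq α β γ (m - d)) hh2 hh0.ne' (Dl_eq t m) d2 hD.ne' hcs
      e1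
    rw [this, ← hkh]
    have e : κ * h / h = κ := by field_simp
    rw [e]
    ring
  -- positivity
  have hp : 0 < (h * Real.cos d + κ * Real.sin d) * (h * Real.cos d - κ * Real.sin d) := by
    have e1 : (h * Real.cos d + κ * Real.sin d) * (h * Real.cos d - κ * Real.sin d)
        = h ^ 2 * Real.cos d ^ 2 - κ ^ 2 * Real.sin d ^ 2 := by ring
    have e2 : κ ^ 2 = ww α β γ m ^ 2 / (qq α β γ m + t) := by rw [hκ, div_pow, hh2]
    have e0 := Dl_eq (α := α) (β := β) (γ := γ) 0 m
    rw [e1, e2, hcos2, d2, hh2]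
    unfold sg
    have e3 : (qq α β γ m + t) * ((Dl α β γ 0 + rr α β γ m * t) / Dl α β γ t)
        - ww α β γ m ^ 2 / (qq α β γ m + t) * (t * (qq α β γ m + t) / Dl α β γ t)
        = (qq α β γ m * Dl α β γ 0 + 2 * t * Dl α β γ 0 + rr α β γ m * t ^ 2) / Dl α β γ t := by
      have hq1 : qq α β γ m + t ≠ 0 := by positivity
      have e4 : ww α β γ m ^ 2 = qq α β γ m * rr α β γ m - Dl α β γ 0 := by
        rw [e0]; ring
      rw [e4]
      field_simp
      ring
    rw [e3]
    positivity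
  have hsum : 0 < (h * Real.cos d + κ * Real.sin d) + (h * Real.cos d - κ * Real.sin d) := by
    have : 0 < h * Real.cos d := by positivity
    linarith
  have p1 : 0 < h * Real.cos d + κ * Real.sin d := by
    rcases pos_and_pos_or_neg_and_neg_of_mul_pos hp with ⟨a, b⟩ | ⟨a, b⟩
    · exact a
    · linarith
  have p2 : 0 < h * Real.cos d - κ * Real.sin d := by
    rcases pos_and_pos_or_neg_and_neg_of_mul_pos hp with ⟨a, b⟩ | ⟨a, b⟩
    · exact b
    · linarith
  constructor
  · have := hE.sq (m + d)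
    rw [s1] at this
    exact (sq_eq_sq₀ (hE.e_pos _).le p1.le).1 this
  · have := hE.sq (m - d)
    rw [s2] at this
    exact (sq_eq_sq₀ (hE.e_pos _).le p2.le).1 this

theorem ip_pm (c : E2) (m d : ℝ) : ip c (m + d) + ip c (m - d) = 2 * ip c m * Real.cos d ∧
    ip c (m + d) - ip c (m - d) = 2 * ip c (m + π / 2) * Real.sin d := by
  have e1 := ip_exp c m (m + d)
  have e2 := ip_exp c m (m - d)
  have h1 : m + d - m = d := by ring
  have h2 : m - d - m = -d := by ring
  rw [h1] at e1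
  rw [h2, Real.cos_neg, Real.sin_neg] at e2
  rw [e1, e2]
  constructor <;> ring

theorem ph_dt (hE : IsE B c α β γ) {t : ℝ} (ht : 0 < t) (m : ℝ) :
    ph (hs B) m (dt α β γ t m) = ip c m + Real.sqrt (qq α β γ m + t) ∧
    pk (hs B) m (dt α β γ t m) = ip c (m + π / 2) + ww α β γ m / Real.sqrt (qq α β γ m + t) := by
  obtain ⟨d0, d1, d2⟩ := dt_spec hE ht m
  obtain ⟨e1, e2⟩ := e_shift hE ht m
  obtain ⟨i1, i2⟩ := ip_pm c m (dt α β γ t m)
  set d := dt α β γ t m
  have hc : Real.cos d ≠ 0 := (Real.cos_pos_of_mem_Ioo ⟨by linarith, d1⟩).ne'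
  have hsn : Real.sin d ≠ 0 := (Real.sin_pos_of_pos_of_lt_pi d0 (by linarith [Real.pi_pos])).ne'
  constructor
  · unfold ph
    rw [div_eq_iff (by positivity)]
    linear_combination e1 + e2 + i1
  · unfold pk
    rw [div_eq_iff (by positivity)]
    linear_combination e1 - e2 + i2

/-- the excess is constant along a confocal ellipse -/
theorem AA_dt (hE : IsE B c α β γ) {t : ℝ} (ht : 0 < t) (m : ℝ) :
    AA (hs B) m (dt α β γ t m) = AA (hs B) 0 (dt α β γ t 0) := by
  have c3 := cont_hs hE.body.cpt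
  have hD := Dl_pos hE ht.le
  have key : ∀ x, HasDerivAt (fun x => AA (hs B) x (dt α β γ t x)) 0 x := by
    intro x
    obtain ⟨d0, d1, d2⟩ := dt_spec hE ht x
    obtain ⟨g1, g2, g3⟩ := sg_lt hE ht x
    have hq := hE.q_pos x
    -- derivative of the opening
    obtain ⟨d', hd'⟩ : ∃ d', HasDerivAt (dt α β γ t) d' x := by
      have hsg : HasDerivAt (sg α β γ t) (t * (2 * ww α β γ x) / Dl α β γ t) x := by
        unfold sg
        exact (((qq_deriv x).add_const t).const_mul t).div_const _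
      have h1 := hsg.sqrt g1.ne'
      have h3 : 0 < Real.sqrt (sg α β γ t x) := Real.sqrt_pos.2 g1
      have h4 : Real.sqrt (sg α β γ t x) < 1 := by
        rw [Real.sqrt_lt' one_pos]; linarith
      have h5 := (Real.hasDerivAt_arcsin (x := Real.sqrt (sg α β γ t x)) (by linarith) h4.ne)
      exact ⟨_, HasDerivAt.comp (h₂ := Real.arcsin) (h := fun x => Real.sqrt (sg α β γ t x)) x h5 h1⟩
    have hh : HasDerivAt (fun x => ip c x + Real.sqrt (qq α β γ x + t))
        (ip c (x + π / 2) + ww α β γ x / Real.sqrt (qq α β γ x + t)) x := by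
      have h1 := ((qq_deriv (α := α) (β := β) (γ := γ) x).add_const t).sqrt (by positivity)
      have h2 := (ipd c x).add h1
      refine h2.congr_deriv ?_
      have : Real.sqrt (qq α β γ x + t) ≠ 0 := (Real.sqrt_pos.2 (by linarith)).ne'
      field_simp
    have hAA : ∀ x, AA (hs B) x (dt α β γ t x) = 2 * Real.sin (dt α β γ t x)
        * (ip c x + Real.sqrt (qq α β γ x + t))
        - ((∫ φ in (0 : ℝ)..(x + dt α β γ t x), hs B φ) - ∫ φ in (0 : ℝ)..(x - dt α β γ t x), hs B φ) := by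
      intro x
      obtain ⟨d0, d1, d2⟩ := dt_spec hE ht x
      have hc : Real.cos (dt α β γ t x) ≠ 0 := (Real.cos_pos_of_mem_Ioo ⟨by linarith, d1⟩).ne'
      rw [← (ph_dt hE ht x).1]
      unfold AA ph
      rw [Real.tan_eq_sin_div_cos, intervalIntegral.integral_interval_sub_left
        (c3.intervalIntegrable _ _) (c3.intervalIntegrable _ _)]
      field_simp
    have i1 : HasDerivAt (fun x => x + dt α β γ t x) (1 + d') x := (hasDerivAt_id x).add hd'
    have i2 : HasDerivAt (fun x => x - dt α β γ t x) (1 - d') x := (hasDerivAt_id x).sub hd'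
    have j1 : HasDerivAt (fun x => ∫ φ in (0 : ℝ)..(x + dt α β γ t x), hs B φ)
        (hs B (x + dt α β γ t x) * (1 + d')) x :=
      HasDerivAt.comp (h₂ := fun u => ∫ φ in (0 : ℝ)..u, hs B φ) (h := fun x => x + dt α β γ t x) x
        (c3.integral_hasStrictDerivAt 0 _).hasDerivAt i1
    have j2 : HasDerivAt (fun x => ∫ φ in (0 : ℝ)..(x - dt α β γ t x), hs B φ)
        (hs B (x - dt α β γ t x) * (1 - d')) x :=
      HasDerivAt.comp (h₂ := fun u => ∫ φ in (0 : ℝ)..u, hs B φ) (h := fun x => x - dt α β γ t x) x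
        (c3.integral_hasStrictDerivAt 0 _).hasDerivAt i2
    have j3 : HasDerivAt (fun x => 2 * Real.sin (dt α β γ t x))
        (2 * (Real.cos (dt α β γ t x) * d')) x :=
      ((Real.hasDerivAt_sin _).comp x hd').const_mul 2
    have j4 := (j3.mul hh).sub (j1.sub j2)
    have hfun : (fun x => AA (hs B) x (dt α β γ t x)) = fun x => 2 * Real.sin (dt α β γ t x)
        * (ip c x + Real.sqrt (qq α β γ x + t))
        - ((∫ φ in (0 : ℝ)..(x + dt α β γ t x), hs B φ)
          - ∫ φ in (0 : ℝ)..(x - dt α β γ t x), hs B φ) := funext hAA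
    rw [hfun]
    refine HasDerivAt.congr_deriv j4 ?_
    obtain ⟨e1, e2⟩ := e_shift hE ht x
    obtain ⟨k1, k2⟩ := ip_pm c x (dt α β γ t x)
    have f1 : hs B (x + dt α β γ t x) = ip c (x + dt α β γ t x)
        + (Real.sqrt (qq α β γ x + t) * Real.cos (dt α β γ t x)
        + ww α β γ x / Real.sqrt (qq α β γ x + t) * Real.sin (dt α β γ t x)) := by linarith
    have f2 : hs B (x - dt α β γ t x) = ip c (x - dt α β γ t x)
        + (Real.sqrt (qq α β γ x + t) * Real.cos (dt α β γ t x)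
        - ww α β γ x / Real.sqrt (qq α β γ x + t) * Real.sin (dt α β γ t x)) := by linarith
    rw [f1, f2]
    linear_combination (-1 : ℝ) * k2 - d' * k1
  have hdiff : Differentiable ℝ (fun x => AA (hs B) x (dt α β γ t x)) :=
    fun x => (key x).differentiableAt
  exact is_const_of_deriv_eq_zero hdiff (fun x => (key x).deriv) m 0

/-- **Graves' theorem** -/
theorem graves (hE : IsE B c α β γ) {C : ℝ} (hC : 0 < C) : ∃ t : ℝ, 0 < t ∧
    ∀ m, hs (KS B (W B + C)) m = ip c m + Real.sqrt (qq α β γ m + t) := by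
  obtain ⟨d, d0, d1, d2⟩ := AA_ex hE.body 0 hC
  have hcos : 0 < Real.cos d := Real.cos_pos_of_mem_Ioo ⟨by linarith [Real.pi_pos], d1⟩
  have hsin : 0 < Real.sin d := Real.sin_pos_of_pos_of_lt_pi d0 (by linarith [Real.pi_pos])
  have hq := hE.q_pos 0
  have hr := hE.r_pos 0
  have hD0 := Dl_pos hE (le_refl (0 : ℝ))
  have hcs := Real.sin_sq_add_cos_sq d
  -- choice of `t`
  set t1 := max 1 ((Dl α β γ 0 + rr α β γ 0) / Real.cos d ^ 2) with ht1
  have t1a : 1 ≤ t1 := le_max_left _ _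
  have t1b : (Dl α β γ 0 + rr α β γ 0) / Real.cos d ^ 2 ≤ t1 := le_max_right _ _
  have hcont : ContinuousOn (fun t => sg α β γ t 0) (Icc 0 t1) := by
    unfold sg
    apply ContinuousOn.div (by fun_prop)
    · unfold Dl
      fun_prop
    · intro t ht
      exact (Dl_pos hE ht.1).ne'
  have hend : Real.sin d ^ 2 ≤ sg α β γ t1 0 := by
    obtain ⟨-, -, g3⟩ := sg_lt hE (by linarith : 0 < t1) 0
    have hD := Dl_pos hE (by linarith : 0 ≤ t1)
    have h1 : (Dl α β γ 0 + rr α β γ 0 * t1) / Dl α β γ t1 ≤ Real.cos d ^ 2 := by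
      rw [div_le_iff₀ hD]
      rw [div_le_iff₀ (by positivity)] at t1b
      have e1 : t1 ^ 2 ≤ Dl α β γ t1 := by
        have := Dl_eq (α := α) (β := β) (γ := γ) t1 0
        have e0 := Dl_eq (α := α) (β := β) (γ := γ) 0 0
        nlinarith
      have e2 : Dl α β γ 0 + rr α β γ 0 * t1 ≤ (Dl α β γ 0 + rr α β γ 0) * t1 := by nlinarith
      have e3 : (Dl α β γ 0 + rr α β γ 0) * t1 ≤ Real.cos d ^ 2 * t1 ^ 2 := by nlinarith
      have e4 : Real.cos d ^ 2 * t1 ^ 2 ≤ Real.cos d ^ 2 * Dl α β γ t1 :=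
        mul_le_mul_of_nonneg_left e1 (by positivity)
      linarith
    linarith
  have h0 : sg α β γ 0 0 = 0 := by unfold sg; simp
  have hiv := intermediate_value_Icc (by linarith : (0 : ℝ) ≤ t1) hcont
  rw [h0] at hiv
  obtain ⟨t, ht, et⟩ := hiv ⟨by positivity, hend⟩
  simp only at et
  have htp : 0 < t := by
    refine lt_of_le_of_ne ht.1 fun h => ?_
    rw [← h, h0] at et
    have : 0 < Real.sin d ^ 2 := by positivity
    linarith
  have hdt : dt α β γ t 0 = d := by
    unfold dt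
    rw [et, Real.sqrt_sq hsin.le, Real.arcsin_sin (by linarith [Real.pi_pos]) d1.le]
  have hop : IsOp B C (dt α β γ t) := by
    refine ⟨fun m => (dt_spec hE htp m).1, fun m => (dt_spec hE htp m).2.1, fun m => ?_⟩
    rw [AA_dt hE htp, hdt, d2]
  refine ⟨t, htp, fun m => ?_⟩
  rw [hs_KS hE.body hC hop, (ph_dt hE htp m).1]

end

end Pool.Agent.X146.Str
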