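import Pool.Agent.X146.Str.Big
import Pool.Agent.X146.Str.Graves

set_option autoImplicit false
open MeasureTheory Metric Set Filter Topology Real

/-! A transitive body is an ellipse. -/

namespace Pool.Agent.X146.Str

open Pool.Agent.Y508

variable {K : Set E2} {c : E2} {α β γ : ℝ}

/-- all large members of the family are confocal ellipses -/
theorem confocal (hK : Body K) (hT : Trans K) {M : ℝ} (hM : W K < M)
    (hE : IsE (KS K M) c α β γ) {ν : ℝ} (hν : M ≤ ν) :
    ∃ t : ℝ, 0 ≤ t ∧ ∀ x, hs (KS K ν) x = ip c x + Real.sqrt (qq α β γ x + t) := by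
  rcases eq_or_lt_of_le hν with h | h
  · refine ⟨0, le_rfl, fun x => ?_⟩
    rw [add_zero, ← hE.sq, Real.sqrt_sq (hE.e_pos x).le, ← h]
    ring
  · obtain ⟨C, hR⟩ := rel_ex hK hT hM h
    obtain ⟨t, ht, hx⟩ := graves hE hR.pos
    refine ⟨t, ht.le, fun x => ?_⟩
    rw [← rel_hs hK hR, hx]

theorem lam_eq (hK : Body K) (hT : Trans K) {M : ℝ} (hM : W K < M)
    (hE : IsE (KS K M) c α β γ) {m δ : ℝ} (h0 : 0 < δ) (h1 : δ < π / 2)
    (hA : M ≤ W K + AA (hs K) m δ) :
    qq α β γ (m + δ) - (hs K (m + δ) - ip c (m + δ)) ^ 2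
      = qq α β γ (m - δ) - (hs K (m - δ) - ip c (m - δ)) ^ 2 := by
  set ν := W K + AA (hs K) m δ with hν
  have hKν : W K < ν := lt_of_lt_of_le hM hA
  obtain ⟨t, ht, hx⟩ := confocal hK hT hM hE hA
  have hph : hs (KS K ν) m = ph (hs K) m δ := KS_hs hK h0 h1 (by linarith)
  obtain ⟨Ht, hS⟩ := smooth_KS hK hKν
  have hmem : pp (hs K) m δ ∈ KS K ν := by
    change FF (hs K) _ ≤ ν
    rw [FF_pp hK h0 h1]
  have h2 : hs (KS K ν) m • ev m + Ht m • ev (m + π / 2) = pp (hs K) m δ := by
    apply KS_uniq hK hKν m (hS.mem m) hmem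
    · rw [ip_con]
    · rw [ip_pp_m, hph]
  have h3 : Ht m = pk (hs K) m δ := by
    have h4 : ip (hs (KS K ν) m • ev m + Ht m • ev (m + π / 2)) (m + π / 2)
        = ip (pp (hs K) m δ) (m + π / 2) := by rw [h2]
    rwa [ip_con', ip_pp_m'] at h4
  have hq : 0 < qq α β γ m + t := by linarith [hE.q_pos m]
  have h5 : HasDerivAt (hs (KS K ν)) (ip c (m + π / 2) + ww α β γ m / Real.sqrt (qq α β γ m + t)) m := by
    have g1 := ((qq_deriv (α := α) (β := β) (γ := γ) m).add_const t).sqrt hq.ne'
    have g2 := (ipd c m).add g1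
    have hfun : hs (KS K ν) = fun x => ip c x + Real.sqrt (qq α β γ x + t) := funext hx
    rw [hfun]
    refine HasDerivAt.congr_deriv g2 ?_
    have : Real.sqrt (qq α β γ m + t) ≠ 0 := (Real.sqrt_pos.2 hq).ne'
    field_simp
  have h6 := (hS.dh m).unique h5
  rw [h3] at h6
  rw [hx m] at hph
  obtain ⟨q1, q2⟩ := hsP (m := m) (hs K) h0 h1
  rw [← hph, h6] at q1 q2
  have e1 := ip_exp c m (m + δ)
  have e2 := ip_exp c m (m - δ)
  have f1 : m + δ - m = δ := by ring
  have f2 : m - δ - m = -δ := by ring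
  rw [f1] at e1
  rw [f2, Real.cos_neg, Real.sin_neg] at e2
  set h := Real.sqrt (qq α β γ m + t) with hh
  have hh2 : h ^ 2 = qq α β γ m + t := Real.sq_sqrt hq.le
  have hh0 : h ≠ 0 := (Real.sqrt_pos.2 hq).ne'
  set κ := ww α β γ m / h with hκ
  have hkh : κ * h = ww α β γ m := by rw [hκ]; field_simp
  have r1 : hs K (m + δ) - ip c (m + δ) = h * Real.cos δ + κ * Real.sin δ := by
    rw [q1, e1]; ring
  have r2 : hs K (m - δ) - ip c (m - δ) = h * Real.cos δ - κ * Real.sin δ := by
    rw [q2, e2]; ring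
  have s1 := qq_shift (α := α) (β := β) (γ := γ) m δ
  have s2 := qq_shift (α := α) (β := β) (γ := γ) m (-δ)
  rw [Real.cos_neg, Real.sin_neg, neg_sq, ← sub_eq_add_neg] at s2
  rw [r1, r2, s1, s2, ← hkh]
  ring

theorem lam_const (hK : Body K) (hT : Trans K) {M : ℝ} (hM : W K < M)
    (hE : IsE (KS K M) c α β γ) (θ : ℝ) :
    qq α β γ θ - (hs K θ - ip c θ) ^ 2 = qq α β γ 0 - (hs K 0 - ip c 0) ^ 2 := by
  obtain ⟨r, R, hr, hR, hge⟩ := AA_ge hK
  set Λ : ℝ → ℝ := fun θ => qq α β γ θ - (hs K θ - ip c θ) ^ 2 with hΛ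
  set T0 := (M - W K + R) / r with hT0
  have hT0p : 0 < T0 := by
    have : 0 < M - W K + R := by linarith
    positivity
  set d := Real.arctan T0 with hd
  have d0 : 0 < d := Real.arctan_pos.2 hT0p
  have d1 : d < π / 2 := Real.arctan_lt_pi_div_two _
  have key : ∀ m δ, d ≤ δ → δ < π / 2 → Λ (m + δ) = Λ (m - δ) := by
    intro m δ h2 h3
    apply lam_eq hK hT hM hE (by linarith) h3
    have h4 := hge m δ (by linarith) h3
    have h5 : T0 ≤ Real.tan δ := by
      rw [← Real.tan_arctan T0]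
      exact Real.strictMonoOn_tan.monotoneOn ⟨by linarith, d1⟩ ⟨by linarith, h3⟩ h2
    have h6 : r * T0 = M - W K + R := by rw [hT0]; field_simp
    have h7 : r * T0 ≤ r * Real.tan δ := mul_le_mul_of_nonneg_left h5 hr.le
    linarith
  have loc : ∀ a b, a < b → b < a + (π - 2 * d) → Λ a = Λ b := by
    intro a b hab hb
    have k1 := key ((a + (b + 2 * d)) / 2) ((b + 2 * d - a) / 2) (by linarith) (by linarith)
    have k2 := key (b + d) d le_rfl d1
    have e1 : (a + (b + 2 * d)) / 2 + (b + 2 * d - a) / 2 = b + 2 * d := by ring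
    have e2 : (a + (b + 2 * d)) / 2 - (b + 2 * d - a) / 2 = a := by ring
    have e3 : b + d + d = b + 2 * d := by ring
    have e4 : b + d - d = b := by ring
    rw [e1, e2] at k1
    rw [e3, e4] at k2
    rw [← k1, k2]
  have loc2 : ∀ a b, |b - a| < π - 2 * d → Λ a = Λ b := by
    intro a b hab
    rcases lt_trichotomy a b with h | h | h
    · rw [abs_of_pos (by linarith)] at hab
      exact loc a b h (by linarith)
    · rw [h]
    · rw [abs_of_neg (by linarith)] at hab
      exact (loc b a h (by linarith)).symm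
  have hη : 0 < π - 2 * d := by linarith
  obtain ⟨n, hn⟩ := exists_nat_gt (|θ| / (π - 2 * d))
  have hn0 : 0 < (n : ℝ) := lt_of_le_of_lt (by positivity) hn
  have step : ∀ j : ℕ, Λ (j * (θ / n)) = Λ 0 := by
    intro j
    induction j with
    | zero => simp
    | succ j ih =>
      rw [← ih]
      symm
      apply loc2
      have e : ((j + 1 : ℕ) : ℝ) * (θ / n) - j * (θ / n) = θ / n := by push_cast; ring
      rw [e, abs_div, abs_of_pos hn0, div_lt_iff₀ hn0]
      rw [div_lt_iff₀ hη] at hn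
      linarith
  have := step n
  have e : (n : ℝ) * (θ / n) = θ := by field_simp
  rw [e] at this
  exact this

theorem ell_K (hK : Body K) (hT : Trans K) : ∃ (c : E2) (α β γ : ℝ), IsE K c α β γ := by
  obtain ⟨M, hM, c, α, β, γ, hE⟩ := ell_big hK hT
  have hE' : IsE (KS K M) c α β γ := ⟨KS_body hK hM, hE⟩
  set l := qq α β γ 0 - (hs K 0 - ip c 0) ^ 2 with hl
  refine ⟨c, α + -l, β, γ + -l, hK, fun x => ?_⟩
  rw [qq_add]
  have := lam_const hK hT hM hE' x
  linarith

/-- an elliptic body is an affine image of the disc -/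
theorem image_of_isE (hE : IsE K c α β γ) : ∃ f : E2 ≃ᵃ[ℝ] E2, K = f '' closedBall 0 1 := by
  obtain ⟨hα, hγ, hΔ⟩ := disc_pos hE.q_pos
  set a := Real.sqrt α with ha
  have ha0 : 0 < a := Real.sqrt_pos.2 hα
  have ha2 : a ^ 2 = α := Real.sq_sqrt hα.le
  set b := β / a with hb
  have hab : a * b = β := by rw [hb]; field_simp
  have hd2 : 0 < γ - b ^ 2 := by
    have : γ - b ^ 2 = (α * γ - β ^ 2) / α := by
      rw [hb, div_pow, ha2]; field_simp
    rw [this]; positivity
  set d := Real.sqrt (γ - b ^ 2) with hd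
  have hd0 : 0 < d := Real.sqrt_pos.2 hd2
  have hdd : d ^ 2 = γ - b ^ 2 := Real.sq_sqrt hd2.le
  have hq : ∀ x, qq α β γ x = (a * Real.cos x + b * Real.sin x) ^ 2 + (d * Real.sin x) ^ 2 := by
    intro x
    unfold qq
    have e : (d * Real.sin x) ^ 2 = d ^ 2 * Real.sin x ^ 2 := by ring
    rw [e, hdd, ← ha2, ← hab]
    ring
  have hip : ∀ x, hs K x = ip c x
      + Real.sqrt ((a * Real.cos x + b * Real.sin x) ^ 2 + (d * Real.sin x) ^ 2) := by
    intro x
    rw [← hq, ← hE.sq, Real.sqrt_sq (hE.e_pos x).le]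
    ring
  -- the linear map
  let L : E2 ≃ₗ[ℝ] E2 :=
    { toFun := fun y => pt (a * y 0) (b * y 0 + d * y 1)
      map_add' := fun x y => by
        ext i
        fin_cases i
        · simp [pt]; ring
        · simp [pt]; ring
      map_smul' := fun r x => by
        ext i
        fin_cases i
        · simp [pt]; ring
        · simp [pt]; ring
      invFun := fun y => pt (y 0 / a) ((y 1 - b * (y 0 / a)) / d)
      left_inv := fun x => by
        ext i
        fin_cases i
        · simp [pt]; field_simp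
        · simp [pt]; field_simp; ring
      right_inv := fun x => by
        ext i
        fin_cases i
        · simp [pt]; field_simp
        · simp [pt]; field_simp; ring }
  have hL : ∀ y θ, ip (L y) θ = y 0 * (a * Real.cos θ + b * Real.sin θ) + y 1 * (d * Real.sin θ) := by
    intro y θ
    change ip (pt (a * y 0) (b * y 0 + d * y 1)) θ = _
    simp only [ip, pt_zero, pt_one]
    ring
  refine ⟨L.toAffineEquiv.trans (AffineEquiv.constVAdd ℝ E2 c), ?_⟩
  have hf : ∀ y, (L.toAffineEquiv.trans (AffineEquiv.constVAdd ℝ E2 c)) y = c + L y := by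
    intro y
    simp [AffineEquiv.trans_apply]
  have cs : ∀ u v s t : ℝ, u * s + v * t ≤ Real.sqrt (u ^ 2 + v ^ 2) * Real.sqrt (s ^ 2 + t ^ 2) := by
    intro u v s t
    rw [← Real.sqrt_mul (by positivity)]
    apply Real.le_sqrt_of_sq_le
    nlinarith [sq_nonneg (u * t - v * s)]
  ext x
  constructor
  · intro hx
    refine ⟨L.symm (x - c), ?_, by rw [hf, L.apply_symm_apply]; abel⟩
    set y := L.symm (x - c) with hy
    have hLy : L y = x - c := L.apply_symm_apply _
    rw [mem_closedBall, dist_zero_right]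
    by_contra hcon
    push Not at hcon
    -- choice of the direction
    have hv : (pt (y 0 / a - b / a * (y 1 / d)) (y 1 / d) : E2) ≠ 0 := by
      intro hz
      have z1 : y 1 / d = 0 := by
        have := congrArg (fun x : E2 => x 1) hz
        simpa using this
      have z0 : y 0 / a - b / a * (y 1 / d) = 0 := by
        have := congrArg (fun x : E2 => x 0) hz
        simpa using this
      rw [z1, mul_zero, sub_zero] at z0
      have y1 : y 1 = 0 := by
        rcases div_eq_zero_iff.1 z1 with h | h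
        · exact h
        · exact absurd h hd0.ne'
      have y0 : y 0 = 0 := by
        rcases div_eq_zero_iff.1 z0 with h | h
        · exact h
        · exact absurd h ha0.ne'
      have : y = 0 := by
        ext i
        fin_cases i
        · exact y0
        · exact y1
      rw [this, norm_zero] at hcon
      linarith
    obtain ⟨θ, hθ⟩ := exists_pos_ev _ hv
    have n0 : 0 < ‖(pt (y 0 / a - b / a * (y 1 / d)) (y 1 / d) : E2)‖ := norm_pos_iff.2 hv
    set n := ‖(pt (y 0 / a - b / a * (y 1 / d)) (y 1 / d) : E2)‖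
    have c0 : y 0 / a - b / a * (y 1 / d) = n * Real.cos θ := by
      have := congrArg (fun x : E2 => x 0) hθ
      simpa [ev] using this
    have c1 : y 1 / d = n * Real.sin θ := by
      have := congrArg (fun x : E2 => x 1) hθ
      simpa [ev] using this
    have k1 : d * Real.sin θ = y 1 / n := by
      rw [eq_div_iff n0.ne']
      have : y 1 = d * (n * Real.sin θ) := by rw [← c1]; field_simp
      rw [this]; ring
    have k0 : a * Real.cos θ + b * Real.sin θ = y 0 / n := by
      rw [eq_div_iff n0.ne']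
      have e1 : y 0 = a * (n * Real.cos θ) + b * (n * Real.sin θ) := by
        rw [← c0, ← c1]; field_simp; ring
      rw [e1]; ring
    have h1 := le_hs hE.body.cpt hx θ
    have e1 : ip x θ = ip c θ + ip (L y) θ := by rw [hLy, ip_sub]; ring
    rw [hip, e1, hL, k0, k1] at h1
    have h2 : y 0 * (y 0 / n) + y 1 * (y 1 / n) = ‖y‖ ^ 2 / n := by
      rw [norm_sq_E2 y]; ring
    have h3 : (y 0 / n) ^ 2 + (y 1 / n) ^ 2 = (‖y‖ / n) ^ 2 := by
      rw [div_pow, div_pow, div_pow, norm_sq_E2 y]; ring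
    rw [h2, h3, Real.sqrt_sq (by positivity)] at h1
    have h4 : ‖y‖ ^ 2 / n ≤ ‖y‖ / n := by linarith
    rw [div_le_div_iff_of_pos_right n0] at h4
    nlinarith
  · rintro ⟨y, hy, rfl⟩
    rw [hf]
    rw [mem_closedBall, dist_zero_right] at hy
    apply mem_of_ip_le hE.body.cpt hE.body.cvx hE.body.ne
    intro θ
    rw [hip, ip_add, hL]
    have h1 := cs (y 0) (y 1) (a * Real.cos θ + b * Real.sin θ) (d * Real.sin θ)
    have h2 : Real.sqrt (y 0 ^ 2 + y 1 ^ 2) = ‖y‖ := by
      rw [← norm_sq_E2, Real.sqrt_sq (norm_nonneg _)]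
    rw [h2] at h1
    have h3 : ‖y‖ * Real.sqrt ((a * Real.cos θ + b * Real.sin θ) ^ 2 + (d * Real.sin θ) ^ 2)
        ≤ 1 * Real.sqrt ((a * Real.cos θ + b * Real.sin θ) ^ 2 + (d * Real.sin θ) ^ 2) :=
      mul_le_mul_of_nonneg_right hy (Real.sqrt_nonneg _)
    linarith

/-- **A transitive body is an ellipse.** -/
theorem melrose : ∀ K : Set E2, IsCompact K → Convex ℝ K → (interior K).Nonempty →
    (∀ ℓ1 : ℝ, ((μH[1] : Measure E2) (frontier K)).toReal < ℓ1 → ∀ ℓ2 : ℝ,
      ((μH[1] : Measure E2) (frontier {x : E2 |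
        ((μH[1] : Measure E2) (frontier (convexHull ℝ (insert x K)))).toReal ≤ ℓ1})).toReal < ℓ2 →
      ∃ ℓ3 : ℝ, {y : E2 | ((μH[1] : Measure E2) (frontier (convexHull ℝ (insert y
        {x : E2 | ((μH[1] : Measure E2) (frontier (convexHull ℝ (insert x K)))).toReal
          ≤ ℓ1})))).toReal = ℓ2}
        = {y : E2 | ((μH[1] : Measure E2) (frontier (convexHull ℝ (insert y K)))).toReal = ℓ3}) →
    ∃ f : E2 ≃ᵃ[ℝ] E2, K = f '' closedBall 0 1 := by
  intro K h1 h2 h3 h
  have hK : Body K := ⟨h1, h2, h3⟩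
  have hT : Trans K := by
    intro ℓ1 hℓ1 ℓ2 hℓ2
    have e1 : {x : E2 | ((μH[1] : Measure E2) (frontier (convexHull ℝ (insert x K)))).toReal ≤ ℓ1}
        = KS K ℓ1 := by
      ext x
      simp only [mem_ofPred_eq, perim_hull hK]
      rfl
    have hB := KS_body hK hℓ1
    have := h ℓ1 (by rw [perim_eq hK]; exact hℓ1) ℓ2 (by rw [e1, perim_eq hB]; exact hℓ2)
    rw [e1] at this
    simp only [perim_hull hK, perim_hull hB] at this
    exact this
  obtain ⟨c, α, β, γ, hE⟩ := ell_K hK hT
  exact image_of_isE hE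

end Pool.Agent.X146.Str
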