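import Pool.Agent.Y508.PerimLow

set_option autoImplicit false
open MeasureTheory Metric Set Filter Topology Real

/-! Perimeter of the convex hull of a plane convex body and a point. -/

namespace Pool.Agent.X146.Str

open Pool.Agent.Y508

theorem ipd (x : E2) (θ : ℝ) : HasDerivAt (ip x) (ip x (θ + π / 2)) θ := by
  have h1 : ip x (θ + π / 2) = x 0 * (-Real.sin θ) + x 1 * Real.cos θ := by
    rw [ip, Real.cos_add_pi_div_two, Real.sin_add_pi_div_two]
  rw [h1]
  exact ((Real.hasDerivAt_cos θ).const_mul _).add ((Real.hasDerivAt_sin θ).const_mul _)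

theorem ip_lip (x : E2) (a b : ℝ) : |ip x a - ip x b| ≤ ‖x‖ * |a - b| := by
  have := Convex.norm_image_sub_le_of_norm_hasDerivWithin_le (f := ip x)
    (f' := fun θ => ip x (θ + π / 2)) (s := univ) (C := ‖x‖) (x := b) (y := a)
    (fun θ _ => (ipd x θ).hasDerivWithinAt) (fun θ _ => abs_ip_le x _) convex_univ
    (mem_univ _) (mem_univ _)
  simpa [Real.norm_eq_abs] using this

theorem hull_eq {K : Set E2} (hK : Body K) (x : E2) :
    convexHull ℝ (insert x K) = (fun p : ℝ × E2 => (1 - p.1) • x + p.1 • p.2) '' (Icc 0 1 ×ˢ K) := by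
  rw [convexHull_insert hK.ne, hK.cvx.convexHull_eq]
  ext z
  simp only [mem_convexJoin, mem_singleton_iff, exists_eq_left, segment_eq_image, mem_image,
    mem_prod, Prod.exists]
  constructor
  · rintro ⟨y, hy, t, ht, rfl⟩
    exact ⟨t, y, ⟨ht, hy⟩, rfl⟩
  · rintro ⟨t, y, ⟨ht, hy⟩, rfl⟩
    exact ⟨y, hy, t, ht, rfl⟩

theorem hull_body {K : Set E2} (hK : Body K) (x : E2) : Body (convexHull ℝ (insert x K)) := by
  refine ⟨?_, convex_convexHull ℝ _, ?_⟩
  · rw [hull_eq hK]
    exact (isCompact_Icc.prod hK.cpt).image (by fun_prop)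
  · exact hK.int.mono (interior_mono ((subset_insert x K).trans (subset_convexHull ℝ _)))

theorem hs_hull {K : Set E2} (hK : Body K) (x : E2) (θ : ℝ) :
    hs (convexHull ℝ (insert x K)) θ = max (hs K θ) (ip x θ) := by
  apply le_antisymm
  · apply hs_le (hull_body hK x).ne
    rw [hull_eq hK]
    rintro _ ⟨⟨t, y⟩, ⟨ht, hy⟩, rfl⟩
    simp only at ht hy ⊢
    rw [ip_add, ip_smul, ip_smul]
    have h1 := le_hs hK.cpt hy θ
    have h2 := le_max_left (hs K θ) (ip x θ)
    have h3 := le_max_right (hs K θ) (ip x θ)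
    have e : max (hs K θ) (ip x θ) = (1 - t) * max (hs K θ) (ip x θ) + t * max (hs K θ) (ip x θ) := by
      ring
    rw [e]
    exact add_le_add (mul_le_mul_of_nonneg_left h3 (by linarith [ht.2]))
      (mul_le_mul_of_nonneg_left (h1.trans h2) ht.1)
  · apply max_le
    · exact hs_mono (hull_body hK x).cpt hK.ne ((subset_insert x K).trans (subset_convexHull ℝ _)) θ
    · exact le_hs (hull_body hK x).cpt (subset_convexHull ℝ _ (mem_insert x K)) θ

/-- the perimeter of the convex hull of a point and the body with support function `H` -/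
noncomputable def FF (H : ℝ → ℝ) (x : E2) : ℝ := ∫ θ in (0 : ℝ)..(2 * π), max (H θ) (ip x θ)

theorem perim_hull {K : Set E2} (hK : Body K) (x : E2) :
    ((μH[1] : Measure E2) (frontier (convexHull ℝ (insert x K)))).toReal = FF (hs K) x := by
  rw [perim_eq (hull_body hK x), W, FF]
  simp only [hs_hull hK]

/-- the sublevel sets -/
def KS (K : Set E2) (μ : ℝ) : Set E2 := {x | FF (hs K) x ≤ μ}

section basic

variable {K : Set E2}

theorem cont_mx (hK : Body K) (x : E2) : Continuous (fun θ => max (hs K θ) (ip x θ)) :=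
  (cont_hs hK.cpt).max (cont_ip x)

theorem int_shift {f : ℝ → ℝ} (hp : ∀ θ, f (θ + 2 * π) = f θ) (a : ℝ) :
    ∫ θ in a..(a + 2 * π), f θ = ∫ θ in (0 : ℝ)..(2 * π), f θ := by
  have h : Function.Periodic f (2 * π) := hp
  have := h.intervalIntegral_add_eq a 0
  rwa [zero_add] at this

theorem FF_shift (x : E2) (a : ℝ) :
    ∫ θ in a..(a + 2 * π), max (hs K θ) (ip x θ) = FF (hs K) x := by
  apply int_shift
  intro θ
  rw [hs_two_pi, ip_two_pi]

theorem W_sh (a : ℝ) : ∫ θ in a..(a + 2 * π), hs K θ = W K :=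
  int_shift (fun θ => hs_two_pi K θ) a

theorem W_le_FF (hK : Body K) (x : E2) : W K ≤ FF (hs K) x := by
  apply intervalIntegral.integral_mono_on (by positivity)
    ((cont_hs hK.cpt).intervalIntegrable _ _) ((cont_mx hK x).intervalIntegrable _ _)
  intro θ _
  exact le_max_left _ _

theorem FF_of_mem (hK : Body K) {x : E2} (hx : x ∈ K) : FF (hs K) x = W K := by
  unfold FF W
  congr 1
  ext θ
  exact max_eq_left (le_hs hK.cpt hx θ)

theorem W_lt_FF (hK : Body K) {x : E2} (hx : x ∉ K) : W K < FF (hs K) x := by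
  obtain ⟨θ₀, hθ⟩ := sep hK.cpt hK.cvx hK.ne hx
  rw [← FF_shift x θ₀, ← W_sh (K := K) θ₀, ← sub_pos, ← intervalIntegral.integral_sub
    ((cont_mx hK x).intervalIntegrable _ _) ((cont_hs hK.cpt).intervalIntegrable _ _)]
  apply intervalIntegral.integral_pos (by linarith [Real.two_pi_pos])
  · exact ((cont_mx hK x).sub (cont_hs hK.cpt)).continuousOn
  · intro θ _
    exact sub_nonneg.2 (le_max_left _ _)
  · exact ⟨θ₀, ⟨le_rfl, by linarith [Real.two_pi_pos]⟩, sub_pos.2 (lt_of_lt_of_le hθ (le_max_right _ _))⟩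

theorem FF_convex (hK : Body K) (x y : E2) {s t : ℝ} (hs' : 0 ≤ s) (ht : 0 ≤ t) (hst : s + t = 1) :
    FF (hs K) (s • x + t • y) ≤ s * FF (hs K) x + t * FF (hs K) y := by
  unfold FF
  rw [← intervalIntegral.integral_const_mul, ← intervalIntegral.integral_const_mul,
    ← intervalIntegral.integral_add (((cont_mx hK x).const_mul s).intervalIntegrable _ _)
      (((cont_mx hK y).const_mul t).intervalIntegrable _ _)]
  apply intervalIntegral.integral_mono_on (by positivity)
    ((cont_mx hK _).intervalIntegrable _ _)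
    ((((cont_mx hK x).const_mul s).add ((cont_mx hK y).const_mul t)).intervalIntegrable _ _)
  intro θ _
  rw [ip_add, ip_smul, ip_smul]
  apply max_le
  · calc hs K θ = s * hs K θ + t * hs K θ := by rw [← add_mul, hst, one_mul]
      _ ≤ _ := add_le_add (mul_le_mul_of_nonneg_left (le_max_left _ _) hs')
        (mul_le_mul_of_nonneg_left (le_max_left _ _) ht)
  · exact add_le_add (mul_le_mul_of_nonneg_left (le_max_right _ _) hs')
        (mul_le_mul_of_nonneg_left (le_max_right _ _) ht)

theorem FF_lip (hK : Body K) (x y : E2) : FF (hs K) x ≤ FF (hs K) y + 2 * π * ‖x - y‖ := by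
  have e : FF (hs K) y + 2 * π * ‖x - y‖
      = ∫ θ in (0 : ℝ)..(2 * π), (max (hs K θ) (ip y θ) + ‖x - y‖) := by
    rw [intervalIntegral.integral_add ((cont_mx hK y).intervalIntegrable _ _)
      (continuous_const.intervalIntegrable _ _)]
    simp [FF]
  rw [e]
  apply intervalIntegral.integral_mono_on (by positivity)
    ((cont_mx hK x).intervalIntegrable _ _)
    (((cont_mx hK y).add continuous_const).intervalIntegrable _ _)
  intro θ _
  have h1 : ip x θ ≤ ip y θ + ‖x - y‖ := by
    have := (abs_le.1 (abs_ip_le (x - y) θ)).2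
    rw [ip_sub] at this
    linarith
  change max (hs K θ) (ip x θ) ≤ max (hs K θ) (ip y θ) + ‖x - y‖
  apply max_le
  · linarith [le_max_left (hs K θ) (ip y θ), norm_nonneg (x - y)]
  · linarith [le_max_right (hs K θ) (ip y θ)]

theorem FF_cont (hK : Body K) : Continuous (FF (hs K)) := by
  have : LipschitzWith (Real.toNNReal (2 * π)) (FF (hs K)) := by
    apply LipschitzWith.of_dist_le_mul
    intro x y
    rw [Real.coe_toNNReal _ (by positivity), Real.dist_eq, dist_eq_norm, abs_le]
    have h1 := FF_lip hK x y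
    have h2 := FF_lip hK y x
    rw [norm_sub_rev] at h2
    constructor <;> linarith
  exact this.continuous

theorem hs_bd (hK : Body K) : ∃ R : ℝ, 0 ≤ R ∧ ∀ θ, |hs K θ| ≤ R := by
  obtain ⟨R, hR⟩ := hK.cpt.isBounded.exists_norm_le
  obtain ⟨z, hz⟩ := hK.ne
  refine ⟨R, (norm_nonneg z).trans (hR z hz), fun θ => ?_⟩
  obtain ⟨x, hx, e⟩ := exists_hs hK.cpt hK.ne θ
  rw [e]
  exact (abs_ip_le x θ).trans (hR x hx)

theorem ip_int_pos (x : E2) : ∫ θ in (0 : ℝ)..(2 * π), max (ip x θ) 0 = 2 * ‖x‖ := by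
  have h1 : ∀ θ, max (ip x θ) 0 = (1 / 2) * |ip x θ| + (1 / 2) * ip x θ := by
    intro θ
    rcases le_total 0 (ip x θ) with h | h
    · rw [max_eq_left h, abs_of_nonneg h]; ring
    · rw [max_eq_right h, abs_of_nonpos h]; ring
  simp only [h1]
  have c1 : Continuous fun θ => (1 / 2) * |ip x θ| := ((cont_ip x).abs).const_mul _
  have c2 : Continuous fun θ => (1 / 2) * ip x θ := (cont_ip x).const_mul _
  rw [intervalIntegral.integral_add (c1.intervalIntegrable _ _) (c2.intervalIntegrable _ _),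
    intervalIntegral.integral_const_mul, intervalIntegral.integral_const_mul, int_abs_ip]
  have h2 : ∫ θ in (0 : ℝ)..(2 * π), ip x θ = 0 := by
    simp only [ip]
    rw [intervalIntegral.integral_add ((Continuous.intervalIntegrable (by fun_prop) _ _))
      ((Continuous.intervalIntegrable (by fun_prop) _ _)), intervalIntegral.integral_const_mul,
      intervalIntegral.integral_const_mul, integral_cos, integral_sin]
    simp
  rw [h2]
  ring

/-- growth -/
theorem FF_coer (hK : Body K) : ∃ R : ℝ, ∀ x, 2 * ‖x‖ ≤ FF (hs K) x + R := by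
  obtain ⟨R, hR0, hR⟩ := hs_bd hK
  refine ⟨2 * π * R, fun x => ?_⟩
  have e : FF (hs K) x + 2 * π * R
      = ∫ θ in (0 : ℝ)..(2 * π), (max (hs K θ) (ip x θ) + R) := by
    rw [intervalIntegral.integral_add ((cont_mx hK x).intervalIntegrable _ _)
      (continuous_const.intervalIntegrable _ _)]
    simp [FF]
  rw [e, ← ip_int_pos]
  apply intervalIntegral.integral_mono_on (by positivity)
    (((cont_ip x).max continuous_const).intervalIntegrable _ _)
    (((cont_mx hK x).add continuous_const).intervalIntegrable _ _)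
  intro θ _
  have h1 := (abs_le.1 (hR θ)).1
  change max (ip x θ) 0 ≤ max (hs K θ) (ip x θ) + R
  apply max_le
  · linarith [le_max_right (hs K θ) (ip x θ)]
  · linarith [le_max_left (hs K θ) (ip x θ)]

theorem KS_body (hK : Body K) {μ : ℝ} (hμ : W K < μ) : Body (KS K μ) := by
  obtain ⟨R, hR⟩ := FF_coer hK
  refine ⟨?_, ?_, ?_⟩
  · apply Metric.isCompact_of_isClosed_isBounded
    · exact isClosed_le (FF_cont hK) continuous_const
    · apply (Metric.isBounded_closedBall (x := (0 : E2)) (r := (μ + R) / 2)).subset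
      intro x hx
      rw [mem_closedBall, dist_zero_right]
      have h1 : FF (hs K) x ≤ μ := hx
      linarith [hR x]
  · intro x hx y hy s t hs' ht hst
    have h1 : FF (hs K) x ≤ μ := hx
    have h2 : FF (hs K) y ≤ μ := hy
    change FF (hs K) (s • x + t • y) ≤ μ
    calc _ ≤ s * FF (hs K) x + t * FF (hs K) y := FF_convex hK x y hs' ht hst
      _ ≤ s * μ + t * μ := add_le_add (mul_le_mul_of_nonneg_left h1 hs')
          (mul_le_mul_of_nonneg_left h2 ht)
      _ = μ := by rw [← add_mul, hst, one_mul]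
  · obtain ⟨x, hx⟩ := hK.ne
    refine ⟨x, mem_interior.2 ⟨{y | FF (hs K) y < μ}, fun y hy => ?_,
      isOpen_lt (FF_cont hK) continuous_const, ?_⟩⟩
    · have : FF (hs K) y < μ := hy
      exact this.le
    · change FF (hs K) x < μ
      rw [FF_of_mem hK hx]
      exact hμ

theorem sub_KS (hK : Body K) {μ : ℝ} (hμ : W K < μ) : K ⊆ KS K μ := fun x hx => by
  change FF (hs K) x ≤ μ
  rw [FF_of_mem hK hx]
  exact hμ.le

theorem KS_mono {μ ν : ℝ} (h : μ ≤ ν) : KS K μ ⊆ KS K ν := fun x hx => by
  have : FF (hs K) x ≤ μ := hx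
  exact this.trans h

end basic

end Pool.Agent.X146.Str
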