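import Pool.Agent.X146.Str.Tri

set_option autoImplicit false
open MeasureTheory Metric Set Filter Topology Real

/-! Large bodies of the family are ellipses. -/

namespace Pool.Agent.X146.Str

open Pool.Agent.Y508

variable {K : Set E2}

/-- an ellipse in terms of its support function -/
def EllH (h : ℝ → ℝ) : Prop := ∃ (c : E2) (α β γ : ℝ), ∀ x, (h x - ip c x) ^ 2 =
  α * Real.cos x ^ 2 + 2 * β * (Real.cos x * Real.sin x) + γ * Real.sin x ^ 2

theorem am_diag (h k : ℝ → ℝ) (x : ℝ) : H283R2.BK.Am h k x x = h x := by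
  unfold H283R2.BK.Am
  simp

/-- for a large table the rotation number of the caustics reaches `1 / 3` -/
theorem big_ex (hK : Body K) : ∃ (μ0 M0 : ℝ), W K < μ0 ∧ μ0 < M0 ∧
    ∀ (M : ℝ) (k : ℝ → ℝ) (C : ℝ) (δ g : ℝ → ℝ), M0 ≤ M → Cau K M k μ0 C δ g →
      ∀ x, x + 2 * π < g (g (g x)) := by
  set μ0 := W K + 1 with hμ0
  have h0 : W K < μ0 := by linarith
  have hB := KS_body hK h0
  obtain ⟨Hd, hS⟩ := smooth_KS hK h0
  obtain ⟨R, hR0, hR⟩ := hs_bd hB
  have ht3 : 0 < Real.tan (π / 3) :=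
    Real.tan_pos_of_pos_of_lt_pi_div_two (by positivity) (by linarith [Real.pi_pos])
  set A0 := 2 * R * Real.tan (π / 3) + 2 * π / 3 * R with hA0
  have hA : ∀ m, AA (hs (KS K μ0)) m (π / 3) ≤ A0 := by
    intro m
    unfold AA
    have i1 : - (2 * π / 3 * R) ≤ ∫ φ in (m - π / 3)..(m + π / 3), hs (KS K μ0) φ := by
      have : ∫ φ in (m - π / 3)..(m + π / 3), (-R) ≤ ∫ φ in (m - π / 3)..(m + π / 3),
          hs (KS K μ0) φ :=
        intervalIntegral.integral_mono_on (by linarith [Real.pi_pos])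
          (continuous_const.intervalIntegrable _ _)
          ((cont_hs hB.cpt).intervalIntegrable _ _) fun φ _ => (abs_le.1 (hR φ)).1
      rw [intervalIntegral.integral_const, smul_eq_mul] at this
      linarith
    have i2 : (hs (KS K μ0) (m + π / 3) + hs (KS K μ0) (m - π / 3)) * Real.tan (π / 3)
        ≤ 2 * R * Real.tan (π / 3) := by
      apply mul_le_mul_of_nonneg_right _ ht3.le
      linarith [(abs_le.1 (hR (m + π / 3))).2, (abs_le.1 (hR (m - π / 3))).2]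
    linarith
  have hA00 : 0 ≤ A0 := by positivity
  refine ⟨μ0, max (μ0 + 1) (W (KS K μ0) + A0 + 1), h0,
    lt_of_lt_of_le (by linarith) (le_max_left _ _), ?_⟩
  intro M k C δ g hM hc x
  have hM1 : μ0 + 1 ≤ M := (le_max_left _ _).trans hM
  have hM2 : W (KS K μ0) + A0 + 1 ≤ M := (le_max_right _ _).trans hM
  have hC : A0 < C := by
    obtain ⟨y, hy⟩ := lvl_ex hK (by linarith : W K < M)
    have h1 := (hc.rel.lvl y).2 hy
    have h2 : FF (hs K) y ≤ FF (hs (KS K μ0)) y := by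
      apply intervalIntegral.integral_mono_on (by positivity)
        ((cont_mx hK y).intervalIntegrable _ _) ((cont_mx hB y).intervalIntegrable _ _)
      intro θ _
      exact max_le_max (hs_K_lt hK h0 θ).le le_rfl
    linarith
  have hd : ∀ m, π / 3 < δ m := by
    intro m
    by_contra hcon
    push Not at hcon
    have := AA_mono hS m (hc.op.pos m) hcon (by linarith [Real.pi_pos])
    rw [hc.op.eq] at this
    linarith [hA m]
  have hg : ∀ x, x + 2 * π / 3 < g x := by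
    intro x
    obtain ⟨m, h1, h2⟩ := hc.gx x
    linarith [hd m]
  have g1 := hg x
  have g2 := hg (g x)
  have g3 := hg (g (g x))
  linarith

theorem tri_ex (hK : Body K) (hT : Trans K) {M : ℝ} {k ρ : ℝ → ℝ}
    (hS : H283R2.BK.Sup (hs (KS K M)) k ρ) {μ0 : ℝ} (h0 : W K < μ0) (hM : μ0 < M)
    (hbig : ∀ (C : ℝ) (δ g : ℝ → ℝ), Cau K M k μ0 C δ g → ∀ x, x + 2 * π < g (g (g x))) (x : ℝ) :
    ∃ μ C δ g, μ0 ≤ μ ∧ Cau K M k μ C δ g ∧ g (g (g x)) = x + 2 * π := by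
  classical
  choose Cf δf gf hf using fun μ (h1 : W K < μ) (h2 : μ < M) => cau_ex hK hT k hS.dh h1 h2
  set G : ℝ → ℝ → ℝ := fun μ x => if h : W K < μ ∧ μ < M then gf μ h.1 h.2 x else x with hG
  have hFc : Continuous fun z : ℝ × ℝ => H283R2.BK.Am (hs (KS K M)) k z.1 z.2 :=
    H283R2.BK.CAL_contA hS
  have hinj : ∀ x, InjOn (fun y => H283R2.BK.Am (hs (KS K M)) k x y) (Icc x (x + 2 * π)) :=
    fun x => (H283R2.BK.RAT_A H283R2.BK.t_DER hS x).injOn
  have hGp : ∀ μ ∈ Icc μ0 M, ∀ x, G μ x ∈ Icc x (x + 2 * π) ∧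
      H283R2.BK.Am (hs (KS K M)) k x (G μ x) = hs (KS K μ) x := by
    intro μ hμ x
    by_cases h : W K < μ ∧ μ < M
    · have e : G μ x = gf μ h.1 h.2 x := by simp only [hG]; rw [dif_pos h]
      have hc := hf μ h.1 h.2
      rw [e]
      exact ⟨⟨(hc.circ.lo x).le, (hc.circ.hi x).le⟩, hc.am x⟩
    · have e : G μ x = x := by simp only [hG]; rw [dif_neg h]
      have e2 : μ = M := by
        by_contra hne
        exact h ⟨lt_of_lt_of_le h0 hμ.1, lt_of_le_of_ne hμ.2 hne⟩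
      rw [e, am_diag, e2]
      exact ⟨⟨le_rfl, by linarith [Real.two_pi_pos]⟩, rfl⟩
  have hstep : ∀ X : ℝ → ℝ, ContinuousOn X (Icc μ0 M) →
      ContinuousOn (fun μ => G μ (X μ)) (Icc μ0 M) := by
    intro X hX
    exact inv_cont (F := fun x y => H283R2.BK.Am (hs (KS K M)) k x y) hX (hs_contY hK h0 hX)
      hFc hinj fun μ hμ => hGp μ hμ (X μ)
  have hY : ContinuousOn (fun μ => G μ (G μ (G μ x))) (Icc μ0 M) :=
    hstep _ (hstep _ (hstep _ continuousOn_const))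
  have hM0 : G M (G M (G M x)) = x := by
    have e : ∀ x, G M x = x := by
      intro x
      simp only [hG]
      rw [dif_neg (fun h => lt_irrefl _ h.2)]
    rw [e, e, e]
  have hμ0 : x + 2 * π < G μ0 (G μ0 (G μ0 x)) := by
    have e : ∀ x, G μ0 x = gf μ0 h0 hM x := by
      intro x
      simp only [hG]
      rw [dif_pos (⟨h0, hM⟩ : W K < μ0 ∧ μ0 < M)]
    rw [e, e, e]
    exact hbig _ _ _ (hf μ0 h0 hM) x
  have hiv := intermediate_value_Icc' hM.le hY
  simp only [hM0] at hiv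
  obtain ⟨μ, hμ, e⟩ := hiv ⟨by linarith [Real.two_pi_pos], hμ0.le⟩
  simp only at e
  have hμM : μ < M := by
    refine lt_of_le_of_ne hμ.2 fun h => ?_
    rw [h, hM0] at e
    linarith [Real.two_pi_pos]
  have hμK : W K < μ := lt_of_lt_of_le h0 hμ.1
  refine ⟨μ, _, _, _, hμ.1, hf μ hμK hμM, ?_⟩
  have e2 : ∀ x, G μ x = gf μ hμK hμM x := by
    intro x
    simp only [hG]
    rw [dif_pos (⟨hμK, hμM⟩ : W K < μ ∧ μ < M)]
  rw [e2, e2, e2] at e
  exact e

theorem cau_g {M : ℝ} {k ρ : ℝ → ℝ} (hS : H283R2.BK.Sup (hs (KS K M)) k ρ) {μ C C' : ℝ}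
    {δ g δ' g' : ℝ → ℝ} (hc : Cau K M k μ C δ g) (hc' : Cau K M k μ C' δ' g') (x : ℝ) :
    g x = g' x := by
  apply (H283R2.BK.RAT_A H283R2.BK.t_DER hS x).injOn ⟨(hc.circ.lo x).le, (hc.circ.hi x).le⟩
    ⟨(hc'.circ.lo x).le, (hc'.circ.hi x).le⟩
  simp only
  rw [hc.am, hc'.am]

theorem ell_big (hK : Body K) (hT : Trans K) : ∃ M, W K < M ∧ EllH (hs (KS K M)) := by
  obtain ⟨μ0, M, h0, hM, hbig⟩ := big_ex hK
  obtain ⟨k, ρ, hS⟩ := sup_ex hK hT (h0.trans hM)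
  have htri := tri_ex hK hT hS h0 hM (fun C δ g hc => hbig M k C δ g le_rfl hc)
  have hMK : W K < M := h0.trans hM
  obtain ⟨μ1, C1, δ1, g1, hμ1, hc1, e1⟩ := htri 0
  have hg3 : ∀ x, g1 (g1 (g1 x)) = x + 2 * π := by
    intro x
    obtain ⟨μ2, C2, δ2, g2, hμ2, hc2, e2⟩ := htri x
    have := tri_unique hK hc2 hc1 e2 e1
    subst this
    have e := cau_g hS hc1 hc2
    rw [e x, e (g2 x), e (g2 (g2 x)), e2]
  have hcov : ∀ x y, x < y → y < g1 x → ∃ g, H283R2.BK.Circ (hs (KS K M)) k g ∧ g x = y := by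
    intro x y hxy hyg
    have hA := H283R2.BK.RAT_A H283R2.BK.t_DER hS x
    have hg1 := hc1.circ.hi x
    have m1 : x ∈ Icc x (x + 2 * π) := ⟨le_rfl, by linarith [Real.two_pi_pos]⟩
    have m2 : y ∈ Icc x (x + 2 * π) := ⟨hxy.le, by linarith⟩
    have m3 : g1 x ∈ Icc x (x + 2 * π) := ⟨(hc1.circ.lo x).le, hg1.le⟩
    have a1 := hA m1 m2 hxy
    have a2 := hA m2 m3 hyg
    simp only [am_diag, hc1.am] at a1 a2
    have hcont : ContinuousOn (fun μ => hs (KS K μ) x) (Icc μ1 M) :=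
      (hs_contμ hK x).mono fun μ hμ => lt_of_lt_of_le hc1.rel.lo hμ.1
    obtain ⟨μ, hμ, e⟩ := intermediate_value_Icc hc1.rel.lt.le hcont ⟨a2.le, a1.le⟩
    simp only at e
    have hμM : μ < M := by
      refine lt_of_le_of_ne hμ.2 fun h => ?_
      rw [h] at e
      linarith
    have hμK : W K < μ := lt_of_lt_of_le hc1.rel.lo hμ.1
    obtain ⟨C, δ, g, hc⟩ := cau_ex hK hT k hS.dh hμK hμM
    refine ⟨g, hc.circ, ?_⟩
    apply hA.injOn ⟨(hc.circ.lo x).le, (hc.circ.hi x).le⟩ m2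
    simp only
    rw [hc.am, e]
  obtain ⟨o, ho⟩ := hK.ne
  obtain ⟨s1, s2⟩ := H283R2.BK.t_SH (hs (KS K M)) k ρ hS (o 0) (o 1)
  have hpos : ∀ x, 0 < H283R2.BK.hs (hs (KS K M)) (o 0) (o 1) x := by
    intro x
    have h1 := le_hs hK.cpt ho x
    have h2 := hs_K_lt hK hMK x
    unfold H283R2.BK.hs
    unfold ip at h1
    linarith
  have hE := H283R2.BK.f_CORE _ _ ρ g1 s1 hpos (s2 g1 hc1.circ) hg3
    (Eventually.of_forall fun z h1 h2 => by
      obtain ⟨g, a, b⟩ := hcov z.1 z.2 h1 h2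
      exact ⟨g, s2 g a, b⟩)
  obtain ⟨a, b, α, β, γ, hE⟩ := hE
  refine ⟨M, hMK, pt (o 0 + a) (o 1 + b), α, β, γ, fun x => ?_⟩
  rw [← hE x]
  unfold H283R2.BK.hs
  simp only [ip, pt_zero, pt_one]
  ring

end Pool.Agent.X146.Str
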