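import Pool.Agent.X146.Str.Reg

set_option autoImplicit false
open MeasureTheory Metric Set Filter Topology Real

/-! The billiard table given by the string construction: regularity and the invariant circle. -/

namespace Pool.Agent.X146.Str

open Pool.Agent.Y508

section

variable {B : Set E2} {Hd : ℝ → ℝ}

theorem AA_mono (hB : Smooth B Hd) (m : ℝ) {d1 d2 : ℝ} (h0 : 0 < d1) (h12 : d1 ≤ d2)
    (h2 : d2 < π / 2) : AA (hs B) m d1 ≤ AA (hs B) m d2 := by
  have hm : MonotoneOn (fun t => AA (hs B) m t) (Icc d1 d2) := by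
    apply monotoneOn_of_deriv_nonneg (convex_Icc _ _)
    · intro t ht
      exact (AA_dδ hB (by linarith [ht.1]) (by linarith [ht.2])).continuousAt.continuousWithinAt
    · intro t ht
      rw [interior_Icc] at ht
      exact (AA_dδ hB (by linarith [ht.1]) (by linarith [ht.2])).differentiableAt.differentiableWithinAt
    · intro t ht
      rw [interior_Icc] at ht
      have q0 : 0 < t := by linarith [ht.1]
      have q1 : t < π / 2 := by linarith [ht.2]
      rw [(AA_dδ hB q0 q1).deriv]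
      exact mul_nonneg (Real.tan_pos_of_pos_of_lt_pi_div_two q0 q1).le
        (add_nonneg (tp_nonneg hB q0 q1).1 (tm_nonneg hB q0 q1).1)
  exact hm ⟨le_rfl, h12⟩ ⟨h12, le_rfl⟩ h12

theorem AA_strict (hB : Smooth B Hd) (m : ℝ) {d1 d2 : ℝ} (h0 : 0 < d1) (h12 : d1 < d2)
    (h2 : d2 < π / 2) (hA : 0 < AA (hs B) m d2) : AA (hs B) m d1 < AA (hs B) m d2 := by
  by_contra hcon
  push Not at hcon
  have hm : StrictMonoOn (fun t => AA (hs B) m t) (Icc d1 d2) := by
    apply strictMonoOn_of_deriv_pos (convex_Icc _ _)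
    · intro t ht
      exact (AA_dδ hB (by linarith [ht.1]) (by linarith [ht.2])).continuousAt.continuousWithinAt
    · intro t ht
      rw [interior_Icc] at ht
      have q0 : 0 < t := by linarith [ht.1]
      have q1 : t < π / 2 := by linarith [ht.2]
      have q2 : 0 < AA (hs B) m t :=
        lt_of_lt_of_le (lt_of_lt_of_le hA hcon) (AA_mono hB m h0 ht.1.le q1)
      rw [(AA_dδ hB q0 q1).deriv]
      obtain ⟨r1, r2⟩ := tpm_pos hB q0 q1 q2
      exact mul_pos (Real.tan_pos_of_pos_of_lt_pi_div_two q0 q1) (add_pos r1 r2)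
  have := hm ⟨le_rfl, h12.le⟩ ⟨h12.le, le_rfl⟩ h12
  exact absurd hcon (not_le.2 this)

theorem AA_inj (hB : Smooth B Hd) (m : ℝ) {d1 d2 : ℝ} (h0 : 0 < d1) (h0' : 0 < d2)
    (h1 : d1 < π / 2) (h2 : d2 < π / 2) (hA : 0 < AA (hs B) m d2)
    (he : AA (hs B) m d1 = AA (hs B) m d2) : d1 = d2 := by
  rcases lt_trichotomy d1 d2 with h | h | h
  · exact absurd he (AA_strict hB m h0 h h2 hA).ne
  · exact h
  · exact absurd he (AA_strict hB m h0' h h1 (by rw [he]; exact hA)).ne'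

/-- the half opening of the caps of the points of the table -/
structure IsOp (B : Set E2) (C : ℝ) (δ : ℝ → ℝ) : Prop where
  pos : ∀ m, 0 < δ m
  lt : ∀ m, δ m < π / 2
  eq : ∀ m, AA (hs B) m (δ m) = C

theorem op_ex (hB : Body B) {C : ℝ} (hC : 0 < C) : ∃ δ, IsOp B C δ := by
  choose δ h0 h1 h2 using fun m => AA_ex hB m hC
  exact ⟨δ, h0, h1, h2⟩

variable {C : ℝ} {δ : ℝ → ℝ}

theorem op_cont (hB : Smooth B Hd) (hC : 0 < C) (hδ : IsOp B C δ) : Continuous δ := by
  rw [Metric.continuous_iff]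
  intro m ε hε
  obtain ⟨e, he0, he1, he2, he3⟩ : ∃ e, 0 < e ∧ e < ε ∧ 0 < δ m - e ∧ δ m + e < π / 2 := by
    refine ⟨min (ε / 2) (min (δ m / 2) ((π / 2 - δ m) / 2)), ?_, ?_, ?_, ?_⟩
    · refine lt_min (by linarith) (lt_min (by linarith [hδ.pos m]) (by linarith [hδ.lt m]))
    · linarith [min_le_left (ε / 2) (min (δ m / 2) ((π / 2 - δ m) / 2))]
    · have := (min_le_right (ε / 2) (min (δ m / 2) ((π / 2 - δ m) / 2))).trans (min_le_left _ _)
      linarith [hδ.pos m]
    · have := (min_le_right (ε / 2) (min (δ m / 2) ((π / 2 - δ m) / 2))).trans (min_le_right _ _)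
      linarith [hδ.lt m]
  have a1 : AA (hs B) m (δ m - e) < C := by
    have := AA_strict hB m he2 (by linarith : δ m - e < δ m) (hδ.lt m) (by rw [hδ.eq]; exact hC)
    rwa [hδ.eq] at this
  have a2 : C < AA (hs B) m (δ m + e) := by
    have h3 := AA_mono hB m (hδ.pos m) (by linarith : δ m ≤ δ m + e) he3
    rw [hδ.eq] at h3
    have := AA_strict hB m (hδ.pos m) (by linarith : δ m < δ m + e) he3 (lt_of_lt_of_le hC h3)
    rwa [hδ.eq] at this
  have hopen : IsOpen {z : ℝ × ℝ | -(π / 2) < z.2 ∧ z.2 < π / 2} :=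
    (isOpen_lt continuous_const continuous_snd).inter (isOpen_lt continuous_snd continuous_const)
  have cA : ∀ d : ℝ, -(π / 2) < d → d < π / 2 → ContinuousAt (fun t => AA (hs B) t d) m := by
    intro d hd1 hd2
    have h1 := (AA_contOn hB.body).continuousAt (hopen.mem_nhds
      (show (m, d) ∈ {z : ℝ × ℝ | -(π / 2) < z.2 ∧ z.2 < π / 2} from ⟨hd1, hd2⟩))
    exact ContinuousAt.comp (f := fun t : ℝ => (t, d)) (x := m) h1
      (by fun_prop : Continuous fun t : ℝ => (t, d)).continuousAt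
  have e1 := (cA (δ m - e) (by linarith [Real.pi_pos]) (by linarith)).eventually_lt
    continuousAt_const a1
  have e2 := continuousAt_const.eventually_lt (cA (δ m + e) (by linarith [Real.pi_pos, hδ.pos m]) he3) a2
  obtain ⟨η, hη, hball⟩ := Metric.eventually_nhds_iff.1 (e1.and e2)
  refine ⟨η, hη, fun t ht => ?_⟩
  obtain ⟨b1, b2⟩ := hball ht
  rw [Real.dist_eq, abs_lt]
  constructor
  · by_contra hcon
    push Not at hcon
    have := AA_mono hB t (hδ.pos t) (by linarith : δ t ≤ δ m - e) (by linarith)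
    rw [hδ.eq] at this
    linarith
  · by_contra hcon
    push Not at hcon
    have := AA_mono hB t (by linarith [hδ.pos m]) (by linarith : δ m + e ≤ δ t) (hδ.lt t)
    rw [hδ.eq] at this
    linarith

theorem pp_per (m d : ℝ) : ph (hs B) (m + 2 * π) d = ph (hs B) m d ∧
    pk (hs B) (m + 2 * π) d = pk (hs B) m d := by
  have e1 : m + 2 * π + d = (m + d) + 2 * π := by ring
  have e2 : m + 2 * π - d = (m - d) + 2 * π := by ring
  unfold ph pk
  rw [e1, e2, hs_two_pi, hs_two_pi]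
  exact ⟨rfl, rfl⟩

theorem AA_per (m d : ℝ) : AA (hs B) (m + 2 * π) d = AA (hs B) m d := by
  have e1 : m + 2 * π + d = (m + d) + 2 * π := by ring
  have e2 : m + 2 * π - d = (m - d) + 2 * π := by ring
  unfold AA
  rw [e1, e2, hs_two_pi, hs_two_pi, ← intervalIntegral.integral_comp_add_right]
  simp only [hs_two_pi]

theorem op_per (hB : Smooth B Hd) (hC : 0 < C) (hδ : IsOp B C δ) (m : ℝ) :
    δ (m + 2 * π) = δ m := by
  apply AA_inj hB m (hδ.pos _) (hδ.pos _) (hδ.lt _) (hδ.lt _) (by rw [hδ.eq]; exact hC)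
  rw [hδ.eq, ← AA_per, hδ.eq]

theorem tp_cont (hB : Smooth B Hd) : ContinuousOn (fun z : ℝ × ℝ => tp (hs B) Hd z.1 z.2)
    {z | 0 < z.2 ∧ z.2 < π / 2} ∧ ContinuousOn (fun z : ℝ × ℝ => tm (hs B) Hd z.1 z.2)
    {z | 0 < z.2 ∧ z.2 < π / 2} := by
  have c3 := cont_hs hB.body.cpt
  have c4 := hB.cd
  have hc : ∀ z ∈ {z : ℝ × ℝ | 0 < z.2 ∧ z.2 < π / 2}, 2 * Real.cos z.2 ≠ 0 := by
    intro z hz
    have := Real.cos_pos_of_mem_Ioo ⟨by linarith [hz.1, Real.pi_pos], hz.2⟩
    positivity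
  have hs' : ∀ z ∈ {z : ℝ × ℝ | 0 < z.2 ∧ z.2 < π / 2}, 2 * Real.sin z.2 ≠ 0 := by
    intro z hz
    have := Real.sin_pos_of_pos_of_lt_pi hz.1 (by linarith [hz.2, Real.pi_pos])
    positivity
  have c1 : ContinuousOn (fun z : ℝ × ℝ => ph (hs B) z.1 z.2) {z | 0 < z.2 ∧ z.2 < π / 2} := by
    unfold ph
    exact ContinuousOn.div (by fun_prop) (by fun_prop) hc
  have c2 : ContinuousOn (fun z : ℝ × ℝ => pk (hs B) z.1 z.2) {z | 0 < z.2 ∧ z.2 < π / 2} := by
    unfold pk
    exact ContinuousOn.div (by fun_prop) (by fun_prop) hs'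
  constructor
  · unfold tp
    exact ((by fun_prop : Continuous fun z : ℝ × ℝ => Hd (z.1 + z.2)).continuousOn.add
      (c1.mul (by fun_prop))).sub (c2.mul (by fun_prop))
  · unfold tm
    exact ((c1.mul (by fun_prop)).add (c2.mul (by fun_prop))).sub
      (by fun_prop : Continuous fun z : ℝ × ℝ => Hd (z.1 - z.2)).continuousOn

/-- derivative of the opening -/
noncomputable def od (B : Set E2) (Hd δ : ℝ → ℝ) (m : ℝ) : ℝ :=
  -((tp (hs B) Hd m (δ m) - tm (hs B) Hd m (δ m)) / (tp (hs B) Hd m (δ m) + tm (hs B) Hd m (δ m)))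

theorem op_deriv (hB : Smooth B Hd) (hC : 0 < C) (hδ : IsOp B C δ) (m : ℝ) :
    HasDerivAt δ (od B Hd δ m) m := by
  have hcont := op_cont hB hC hδ
  have ht := Real.tan_pos_of_pos_of_lt_pi_div_two (hδ.pos m) (hδ.lt m)
  obtain ⟨r1, r2⟩ := tpm_pos hB (hδ.pos m) (hδ.lt m) (by rw [hδ.eq]; exact hC)
  have hopen : IsOpen {z : ℝ × ℝ | 0 < z.2 ∧ z.2 < π / 2} :=
    (isOpen_lt continuous_const continuous_snd).inter (isOpen_lt continuous_snd continuous_const)
  have hmem : (m, δ m) ∈ {z : ℝ × ℝ | 0 < z.2 ∧ z.2 < π / 2} := ⟨hδ.pos m, hδ.lt m⟩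
  have hnb := hopen.mem_nhds hmem
  obtain ⟨t1, t2⟩ := tp_cont hB
  have ctan : ContinuousAt (fun z : ℝ × ℝ => Real.tan z.2) (m, δ m) := by
    have : Real.cos (δ m) ≠ 0 :=
      (Real.cos_pos_of_mem_Ioo ⟨by linarith [hδ.pos m, Real.pi_pos], hδ.lt m⟩).ne'
    exact ContinuousAt.comp (g := Real.tan) (f := fun z : ℝ × ℝ => z.2)
      (Real.continuousAt_tan.2 this) continuous_snd.continuousAt
  have cf1 : ContinuousAt (fun z : ℝ × ℝ => Real.tan z.2 *
      (tp (hs B) Hd z.1 z.2 - tm (hs B) Hd z.1 z.2)) (m, δ m) :=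
    ctan.mul ((t1.continuousAt hnb).sub (t2.continuousAt hnb))
  have cf2 : ContinuousAt (fun z : ℝ × ℝ => Real.tan z.2 *
      (tp (hs B) Hd z.1 z.2 + tm (hs B) Hd z.1 z.2)) (m, δ m) :=
    ctan.mul ((t1.continuousAt hnb).add (t2.continuousAt hnb))
  have hcl : Continuous (fun a : ℝ => ContinuousLinearMap.toSpanSingleton ℝ a) := by
    have : (fun a : ℝ => ContinuousLinearMap.toSpanSingleton ℝ a)
        = fun a : ℝ => a • (ContinuousLinearMap.id ℝ ℝ) := by
      ext a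
      simp
    rw [this]
    fun_prop
  have hF := hasStrictFDerivAt_uncurry_coprod (𝕜 := ℝ) (u := (m, δ m))
    (f := fun x d => AA (hs B) x d)
    (f₁ := fun x d => ContinuousLinearMap.toSpanSingleton ℝ
      (Real.tan d * (tp (hs B) Hd x d - tm (hs B) Hd x d)))
    (f₂ := fun x d => ContinuousLinearMap.toSpanSingleton ℝ
      (Real.tan d * (tp (hs B) Hd x d + tm (hs B) Hd x d)))
    (by
      filter_upwards [hnb] with v hv
      exact (AA_dm hB hv.1 hv.2).hasFDerivAt)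
    (by
      filter_upwards [hnb] with v hv
      exact (AA_dδ hB hv.1 hv.2).hasFDerivAt)
    (hcl.continuousAt.comp cf1) (hcl.continuousAt.comp cf2)
  have hd := impl_deriv (A := fun x d => AA (hs B) x d) (f := δ) (x0 := m) (c := C)
    hF.hasFDerivAt hcont.continuousAt hδ.eq (mul_pos ht (add_pos r1 r2)).ne'
  have e : -(Real.tan (δ m) * (tp (hs B) Hd m (δ m) - tm (hs B) Hd m (δ m))
      / (Real.tan (δ m) * (tp (hs B) Hd m (δ m) + tm (hs B) Hd m (δ m)))) = od B Hd δ m := by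
    rw [mul_div_mul_left _ _ ht.ne']
    rfl
  rw [e] at hd
  exact hd

/-- radius of curvature of the table -/
noncomputable def rad (B : Set E2) (Hd δ : ℝ → ℝ) (m : ℝ) : ℝ :=
  2 * tp (hs B) Hd m (δ m) * tm (hs B) Hd m (δ m) /
    ((tp (hs B) Hd m (δ m) + tm (hs B) Hd m (δ m)) * Real.sin (δ m))

theorem k_deriv (hB : Smooth B Hd) (hC : 0 < C) (hδ : IsOp B C δ) (m : ℝ) :
    HasDerivAt (fun t => pk (hs B) t (δ t)) (rad B Hd δ m - ph (hs B) m (δ m)) m := by
  have d0 := op_deriv hB hC hδ m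
  obtain ⟨r1, r2⟩ := tpm_pos hB (hδ.pos m) (hδ.lt m) (by rw [hδ.eq]; exact hC)
  have hsn : 0 < Real.sin (δ m) :=
    Real.sin_pos_of_pos_of_lt_pi (hδ.pos m) (by linarith [hδ.lt m, Real.pi_pos])
  obtain ⟨q1, q2⟩ := hsP (m := m) (hs B) (hδ.pos m) (hδ.lt m)
  have i1 : HasDerivAt (fun t => t + δ t) (1 + od B Hd δ m) m := (hasDerivAt_id m).add d0
  have i2 : HasDerivAt (fun t => t - δ t) (1 - od B Hd δ m) m := (hasDerivAt_id m).sub d0
  have d1 : HasDerivAt (fun t => hs B (t + δ t)) (Hd (m + δ m) * (1 + od B Hd δ m)) m :=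
    HasDerivAt.comp (h₂ := hs B) (h := fun t => t + δ t) m (hB.dh (m + δ m)) i1
  have d2 : HasDerivAt (fun t => hs B (t - δ t)) (Hd (m - δ m) * (1 - od B Hd δ m)) m :=
    HasDerivAt.comp (h₂ := hs B) (h := fun t => t - δ t) m (hB.dh (m - δ m)) i2
  have d3 : HasDerivAt (fun t => 2 * Real.sin (δ t)) (2 * (Real.cos (δ m) * od B Hd δ m)) m :=
    ((Real.hasDerivAt_sin (δ m)).comp m d0).const_mul 2
  have d4 := (d1.sub d2).div d3 (by positivity)
  have e : ((Hd (m + δ m) * (1 + od B Hd δ m) - Hd (m - δ m) * (1 - od B Hd δ m))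
      * (2 * Real.sin (δ m)) - (hs B (m + δ m) - hs B (m - δ m))
      * (2 * (Real.cos (δ m) * od B Hd δ m))) / (2 * Real.sin (δ m)) ^ 2
      = rad B Hd δ m - ph (hs B) m (δ m) := by
    have f1 : Hd (m + δ m) = tp (hs B) Hd m (δ m) - ph (hs B) m (δ m) * Real.sin (δ m)
        + pk (hs B) m (δ m) * Real.cos (δ m) := by unfold tp; ring
    have f2 : Hd (m - δ m) = - tm (hs B) Hd m (δ m) + ph (hs B) m (δ m) * Real.sin (δ m)
        + pk (hs B) m (δ m) * Real.cos (δ m) := by unfold tm; ring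
    rw [f1, f2, q1, q2]
    unfold rad od
    generalize tp (hs B) Hd m (δ m) = a at *
    generalize tm (hs B) Hd m (δ m) = b at *
    have hab : a + b ≠ 0 := (add_pos r1 r2).ne'
    have hs0 := hsn.ne'
    field_simp
    ring
  have d5 : HasDerivAt (fun t => pk (hs B) t (δ t)) (((Hd (m + δ m) * (1 + od B Hd δ m)
      - Hd (m - δ m) * (1 - od B Hd δ m))
      * (2 * Real.sin (δ m)) - (hs B (m + δ m) - hs B (m - δ m))
      * (2 * (Real.cos (δ m) * od B Hd δ m))) / (2 * Real.sin (δ m)) ^ 2) m := d4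
  rw [e] at d5
  exact d5

theorem pp_mem (hB : Body B) (hδ : IsOp B C δ) (m : ℝ) :
    pp (hs B) m (δ m) ∈ KS B (W B + C) := by
  change FF (hs B) _ ≤ _
  rw [FF_pp hB (hδ.pos m) (hδ.lt m), hδ.eq]

theorem hs_KS (hB : Body B) (hC : 0 < C) (hδ : IsOp B C δ) (m : ℝ) :
    hs (KS B (W B + C)) m = ph (hs B) m (δ m) := by
  have := KS_hs hB (hδ.pos m) (hδ.lt m) (m := m) (by rw [hδ.eq]; exact hC)
  rwa [hδ.eq] at this

theorem h_deriv (hB : Body B) (hC : 0 < C) (hδ : IsOp B C δ) (m : ℝ) :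
    HasDerivAt (hs (KS B (W B + C))) (pk (hs B) m (δ m)) m := by
  obtain ⟨Ht, hT⟩ := smooth_KS hB (ν := W B + C) (by linarith)
  have h1 := hT.dh m
  have h2 : hs (KS B (W B + C)) m • ev m + Ht m • ev (m + π / 2) = pp (hs B) m (δ m) := by
    apply KS_uniq hB (ν := W B + C) (by linarith) m (hT.mem m) (pp_mem hB hδ m)
    · rw [ip_con]
    · rw [ip_pp_m, hs_KS hB hC hδ]
  have h3 : Ht m = pk (hs B) m (δ m) := by
    have h4 : ip (hs (KS B (W B + C)) m • ev m + Ht m • ev (m + π / 2)) (m + π / 2)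
        = ip (pp (hs B) m (δ m)) (m + π / 2) := by rw [h2]
    rwa [ip_con', ip_pp_m'] at h4
  rw [← h3]
  exact h1

theorem sup_T (hB : Smooth B Hd) (hC : 0 < C) (hδ : IsOp B C δ) :
    H283R2.BK.Sup (hs (KS B (W B + C))) (fun m => pk (hs B) m (δ m)) (rad B Hd δ) := by
  obtain ⟨t1, t2⟩ := tp_cont hB
  have hcont := op_cont hB hC hδ
  have c0 : Continuous fun m => (m, δ m) := by fun_prop
  have c1' := ContinuousOn.comp_continuous t1 c0
    fun m => (⟨hδ.pos m, hδ.lt m⟩ : 0 < δ m ∧ δ m < π / 2)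
  have c2' := ContinuousOn.comp_continuous t2 c0
    fun m => (⟨hδ.pos m, hδ.lt m⟩ : 0 < δ m ∧ δ m < π / 2)
  have c1 : Continuous fun m => tp (hs B) Hd m (δ m) := c1'
  have c2 : Continuous fun m => tm (hs B) Hd m (δ m) := c2'
  have hpos : ∀ m, 0 < tp (hs B) Hd m (δ m) ∧ 0 < tm (hs B) Hd m (δ m) := fun m =>
    tpm_pos hB (hδ.pos m) (hδ.lt m) (by rw [hδ.eq]; exact hC)
  have hsn : ∀ m, 0 < Real.sin (δ m) := fun m =>
    Real.sin_pos_of_pos_of_lt_pi (hδ.pos m) (by linarith [hδ.lt m, Real.pi_pos])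
  have e1 : ∀ m, m + 2 * π + δ m = (m + δ m) + 2 * π := fun m => by ring
  have e2 : ∀ m, m + 2 * π - δ m = (m - δ m) + 2 * π := fun m => by ring
  have p1 : Continuous (rad B Hd δ) := by
    unfold rad
    refine Continuous.div ((continuous_const.mul c1).mul c2)
      ((c1.add c2).mul (Real.continuous_sin.comp hcont)) ?_
    intro m
    exact (mul_pos (add_pos (hpos m).1 (hpos m).2) (hsn m)).ne'
  have p2 : ∀ m, 0 < rad B Hd δ m := by
    intro m
    exact div_pos (mul_pos (mul_pos two_pos (hpos m).1) (hpos m).2)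
      (mul_pos (add_pos (hpos m).1 (hpos m).2) (hsn m))
  have p3 : ∀ m, rad B Hd δ (m + 2 * π) = rad B Hd δ m := by
    intro m
    unfold rad tp tm
    rw [op_per hB hC hδ, (pp_per m (δ m)).1, (pp_per m (δ m)).2, e1, e2, hB.pd, hB.pd]
  have p4 : ∀ m, pk (hs B) (m + 2 * π) (δ (m + 2 * π)) = pk (hs B) m (δ m) := by
    intro m
    rw [op_per hB hC hδ, (pp_per m (δ m)).2]
  have p5 : ∀ m, HasDerivAt (fun t => pk (hs B) t (δ t))
      (rad B Hd δ m - hs (KS B (W B + C)) m) m := by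
    intro m
    rw [hs_KS hB.body hC hδ]
    exact k_deriv hB hC hδ m
  exact ⟨h_deriv hB.body hC hδ, p5, p1, p2, fun m => hs_two_pi _ _, p4, p3⟩

theorem mono_pm (hB : Smooth B Hd) (hC : 0 < C) (hδ : IsOp B C δ) :
    StrictMono (fun m => m - δ m) ∧ StrictMono (fun m => m + δ m) := by
  have hpos : ∀ m, 0 < tp (hs B) Hd m (δ m) ∧ 0 < tm (hs B) Hd m (δ m) := fun m =>
    tpm_pos hB (hδ.pos m) (hδ.lt m) (by rw [hδ.eq]; exact hC)
  constructor
  · apply strictMono_of_deriv_pos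
    intro m
    obtain ⟨a, b⟩ := hpos m
    have := (hasDerivAt_id m).sub (op_deriv hB hC hδ m)
    have h2 : deriv (fun m => m - δ m) m = 1 - od B Hd δ m := this.deriv
    rw [h2]
    have : 1 - od B Hd δ m = 2 * tp (hs B) Hd m (δ m) /
        (tp (hs B) Hd m (δ m) + tm (hs B) Hd m (δ m)) := by
      unfold od
      have := (add_pos a b).ne'
      field_simp
      ring
    rw [this]
    positivity
  · apply strictMono_of_deriv_pos
    intro m
    obtain ⟨a, b⟩ := hpos m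
    have := (hasDerivAt_id m).add (op_deriv hB hC hδ m)
    have h2 : deriv (fun m => m + δ m) m = 1 + od B Hd δ m := this.deriv
    rw [h2]
    have : 1 + od B Hd δ m = 2 * tm (hs B) Hd m (δ m) /
        (tp (hs B) Hd m (δ m) + tm (hs B) Hd m (δ m)) := by
      unfold od
      have := (add_pos a b).ne'
      field_simp
      ring
    rw [this]
    positivity

/-- the invariant circle of the caustic -/
theorem circ_T (hB : Smooth B Hd) (hC : 0 < C) (hδ : IsOp B C δ) :
    ∃ g : ℝ → ℝ, H283R2.BK.Circ (hs (KS B (W B + C))) (fun m => pk (hs B) m (δ m)) g ∧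
      (∀ m, g (m - δ m) = m + δ m) ∧ (∀ x, ∃ m, x = m - δ m ∧ g x = m + δ m) ∧
      ∀ x, H283R2.BK.Am (hs (KS B (W B + C))) (fun m => pk (hs B) m (δ m)) x (g x) = hs B x := by
  have hcont := op_cont hB hC hδ
  obtain ⟨s1, s2⟩ := mono_pm hB hC hδ
  have hper := op_per hB hC hδ
  have hsurj : Function.Surjective (fun m => m - δ m) := by
    apply (by fun_prop : Continuous fun m => m - δ m).surjective
    · exact tendsto_atTop_mono (fun m => by linarith [hδ.lt m] : ∀ m, m - π / 2 ≤ m - δ m)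
        (tendsto_atTop_add_const_right _ _ tendsto_id)
    · exact tendsto_atBot_mono (fun m => by linarith [hδ.pos m] : ∀ m, m - δ m ≤ m) tendsto_id
  set E := StrictMono.orderIsoOfSurjective _ s1 hsurj with hE
  have hEa : ∀ m, E m = m - δ m := fun m => rfl
  have hEs : ∀ x, E.symm x - δ (E.symm x) = x := fun x => by
    rw [← hEa]; exact E.apply_symm_apply x
  have hEs' : ∀ m, E.symm (m - δ m) = m := fun m => by
    rw [← hEa]; exact E.symm_apply_apply m
  have hex : ∀ x, ∃ m, x = m - δ m ∧ E.symm x + δ (E.symm x) = m + δ m := fun x =>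
    ⟨E.symm x, (hEs x).symm, rfl⟩
  have key : ∀ m, H283R2.BK.Am (hs (KS B (W B + C))) (fun m => pk (hs B) m (δ m)) (m - δ m)
      (m + δ m) = hs B (m - δ m) ∧ H283R2.BK.Bm (hs (KS B (W B + C)))
      (fun m => pk (hs B) m (δ m)) (m - δ m) (m + δ m) = hs B (m + δ m) := by
    intro m
    obtain ⟨q1, q2⟩ := hsP (m := m) (hs B) (hδ.pos m) (hδ.lt m)
    have e1 : (m - δ m + (m + δ m)) / 2 = m := by ring
    have e2 : (m + δ m - (m - δ m)) / 2 = δ m := by ring
    unfold H283R2.BK.Am H283R2.BK.Bm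
    rw [e1, e2, hs_KS hB.body hC hδ, q1, q2]
    exact ⟨rfl, rfl⟩
  have hAm : ∀ x, H283R2.BK.Am (hs (KS B (W B + C))) (fun m => pk (hs B) m (δ m)) x
      (E.symm x + δ (E.symm x)) = hs B x := by
    intro x
    obtain ⟨m, h1, h2⟩ := hex x
    rw [h2, h1]
    exact (key m).1
  refine ⟨fun x => E.symm x + δ (E.symm x), ⟨?_, ?_, ?_, ?_, ?_, ?_⟩, ?_, hex, hAm⟩
  · have := E.symm.continuous
    fun_prop
  · exact s2.comp E.symm.strictMono
  · intro x
    have h1 : E.symm (x + 2 * π) = E.symm x + 2 * π := by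
      apply E.injective
      rw [E.apply_symm_apply, hEa, hper]
      have := hEs x
      linarith
    simp only [h1, hper]
    ring
  · intro x
    obtain ⟨m, h1, h2⟩ := hex x
    rw [h2, h1]
    linarith [hδ.pos m]
  · intro x
    obtain ⟨m, h1, h2⟩ := hex x
    rw [h2, h1]
    linarith [hδ.lt m, Real.pi_pos]
  · intro x
    rw [hAm]
    obtain ⟨m, h1, h2⟩ := hex x
    rw [h2]
    rw [h1]
    exact (key m).2
  · intro m
    simp only [hEs']

end

end Pool.Agent.X146.Str
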