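import Pool.Agent.X146.Str.Cir
import Pool.Agent.H283R2.BK.Core

set_option autoImplicit false
open MeasureTheory Metric Set Filter Topology Real

/-! The family of bodies given by a transitive body. -/

namespace Pool.Agent.X146.Str

open Pool.Agent.Y508

/-- the transitivity property in terms of the perimeter functions -/
def Trans (K : Set E2) : Prop := ∀ ℓ1 : ℝ, W K < ℓ1 → ∀ ℓ2 : ℝ, W (KS K ℓ1) < ℓ2 →
  ∃ ℓ3 : ℝ, {y : E2 | FF (hs (KS K ℓ1)) y = ℓ2} = {y : E2 | FF (hs K) y = ℓ3}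

variable {K : Set E2}

theorem lvl_ex (hK : Body K) {ν : ℝ} (hν : W K < ν) : ∃ y : E2, FF (hs K) y = ν := by
  obtain ⟨δ, h0, h1, h2⟩ := AA_ex hK 0 (C := ν - W K) (by linarith)
  exact ⟨pp (hs K) 0 δ, by rw [FF_pp hK h0 h1, h2]; ring⟩

/-- the curves of the family are string constructions over each other -/
structure Rel (K : Set E2) (μ ν C : ℝ) : Prop where
  lo : W K < μ
  lt : μ < ν
  pos : 0 < C
  lvl : ∀ y, FF (hs (KS K μ)) y = W (KS K μ) + C ↔ FF (hs K) y = ν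

theorem rel_ex (hK : Body K) (hT : Trans K) {μ ν : ℝ} (hμ : W K < μ) (hν : μ < ν) :
    ∃ C, Rel K μ ν C := by
  obtain ⟨y0, hy0⟩ := lvl_ex hK (hμ.trans hν)
  have hn : y0 ∉ KS K μ := by
    intro h
    have h2 : FF (hs K) y0 ≤ μ := h
    linarith
  have h1 := W_lt_FF (KS_body hK hμ) hn
  obtain ⟨ℓ3, h3⟩ := hT μ hμ _ h1
  have h4 : FF (hs K) y0 = ℓ3 := by
    have : y0 ∈ {y : E2 | FF (hs (KS K μ)) y = FF (hs (KS K μ)) y0} := rfl
    rw [h3] at this
    exact this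
  refine ⟨FF (hs (KS K μ)) y0 - W (KS K μ), hμ, hν, by linarith, fun y => ?_⟩
  have h5 : y ∈ {y : E2 | FF (hs (KS K μ)) y = FF (hs (KS K μ)) y0} ↔
      y ∈ {y : E2 | FF (hs K) y = ℓ3} := by rw [h3]
  have e : W (KS K μ) + (FF (hs (KS K μ)) y0 - W (KS K μ)) = FF (hs (KS K μ)) y0 := by ring
  rw [e]
  have h6 : FF (hs (KS K μ)) y = FF (hs (KS K μ)) y0 ↔ FF (hs K) y = ℓ3 := h5
  rw [h6, ← h4, hy0]

theorem rel_hs (hK : Body K) {μ ν C : ℝ} (hR : Rel K μ ν C) :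
    hs (KS (KS K μ) (W (KS K μ) + C)) = hs (KS K ν) := by
  have hB := KS_body hK hR.lo
  have hν : W K < ν := hR.lo.trans hR.lt
  have hC := hR.pos
  ext m
  apply le_antisymm
  · obtain ⟨δ, h0, h1, h2⟩ := AA_ex hB m hR.pos
    have h3 := KS_hs hB h0 h1 (m := m) (by rw [h2]; exact hR.pos)
    rw [h2] at h3
    rw [h3, ← ip_pp_m]
    apply le_hs (KS_body hK hν).cpt
    have h4 := (hR.lvl (pp (hs (KS K μ)) m δ)).1 (by rw [FF_pp hB h0 h1, h2])
    exact h4.le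
  · obtain ⟨δ, h0, h1, h2⟩ := AA_ex hK m (C := ν - W K) (by linarith)
    have h3 := KS_hs hK h0 h1 (m := m) (by rw [h2]; linarith)
    have e : W K + AA (hs K) m δ = ν := by rw [h2]; ring
    rw [e] at h3
    rw [h3, ← ip_pp_m]
    apply le_hs (KS_body hB (by linarith)).cpt
    have h4 := (hR.lvl (pp (hs K) m δ)).2 (by rw [FF_pp hK h0 h1, e])
    exact h4.le

/-- a caustic of the table with support function `h`, derivative `k` -/
structure Cau (K : Set E2) (M : ℝ) (k : ℝ → ℝ) (μ C : ℝ) (δ g : ℝ → ℝ) : Prop where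
  rel : Rel K μ M C
  op : IsOp (KS K μ) C δ
  hh : ∀ m, hs (KS K M) m = ph (hs (KS K μ)) m (δ m)
  kk : ∀ m, k m = pk (hs (KS K μ)) m (δ m)
  circ : H283R2.BK.Circ (hs (KS K M)) k g
  gd : ∀ m, g (m - δ m) = m + δ m
  gx : ∀ x, ∃ m, x = m - δ m ∧ g x = m + δ m
  am : ∀ x, H283R2.BK.Am (hs (KS K M)) k x (g x) = hs (KS K μ) x

theorem cau_ex (hK : Body K) (hT : Trans K) {M : ℝ} (k : ℝ → ℝ)
    (hk : ∀ m, HasDerivAt (hs (KS K M)) (k m) m) {μ : ℝ} (hμ : W K < μ) (hM : μ < M) :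
    ∃ C δ g, Cau K M k μ C δ g := by
  obtain ⟨C, hR⟩ := rel_ex hK hT hμ hM
  obtain ⟨Hd, hB⟩ := smooth_KS hK hμ
  obtain ⟨δ, hδ⟩ := op_ex hB.body hR.pos
  obtain ⟨g, h1, h2, h3, h4⟩ := circ_T hB hR.pos hδ
  have hh := rel_hs hK hR
  have hkk : ∀ m, k m = pk (hs (KS K μ)) m (δ m) := by
    intro m
    have h5 := h_deriv hB.body hR.pos hδ m
    rw [hh] at h5
    exact (hk m).unique h5
  have hkf : (fun m => pk (hs (KS K μ)) m (δ m)) = k := by
    ext m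
    exact (hkk m).symm
  rw [hh, hkf] at h1
  rw [hh, hkf] at h4
  refine ⟨C, δ, g, hR, hδ, fun m => ?_, hkk, h1, h2, h3, h4⟩
  rw [← hh]
  exact hs_KS hB.body hR.pos hδ m

theorem sup_ex (hK : Body K) (hT : Trans K) {M : ℝ} (hM : W K < M) :
    ∃ k ρ, H283R2.BK.Sup (hs (KS K M)) k ρ := by
  obtain ⟨μ, h1, h2⟩ := exists_between hM
  obtain ⟨C, hR⟩ := rel_ex hK hT h1 h2
  obtain ⟨Hd, hB⟩ := smooth_KS hK h1
  obtain ⟨δ, hδ⟩ := op_ex hB.body hR.pos
  have h3 := sup_T hB hR.pos hδ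
  rw [rel_hs hK hR] at h3
  exact ⟨_, _, h3⟩

/-- strict monotonicity of the family -/
theorem hs_lt (hK : Body K) {μ ν : ℝ} (hμ : W K < μ) (hν : μ < ν) (θ : ℝ) :
    hs (KS K μ) θ < hs (KS K ν) θ := by
  have hB := KS_body hK hμ
  have hB' := KS_body hK (hμ.trans hν)
  obtain ⟨x, hx, e⟩ := exists_hs hB.cpt hB.ne θ
  have h1 : FF (hs K) x < ν := lt_of_le_of_lt hx hν
  have h2 : ∀ᶠ t in 𝓝[>] (0 : ℝ), FF (hs K) (x + t • ev θ) < ν := by
    have hc : Continuous fun t : ℝ => FF (hs K) (x + t • ev θ) :=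
      (FF_cont hK).comp (by fun_prop)
    have h3 := hc.tendsto 0
    simp only [zero_smul, add_zero] at h3
    exact (h3.eventually (gt_mem_nhds h1)).filter_mono nhdsWithin_le_nhds
  obtain ⟨t, ht1, ht2⟩ := (h2.and self_mem_nhdsWithin).exists
  have ht3 : (0 : ℝ) < t := ht2
  have h4 : ip (x + t • ev θ) θ ≤ hs (KS K ν) θ := le_hs hB'.cpt ht1.le θ
  rw [ip_add, ip_smul, ip_ev, sub_self, Real.cos_zero] at h4
  rw [e]
  linarith

theorem hs_K_lt (hK : Body K) {ν : ℝ} (hν : W K < ν) (θ : ℝ) : hs K θ < hs (KS K ν) θ := by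
  obtain ⟨μ, h1, h2⟩ := exists_between hν
  exact lt_of_le_of_lt (hs_mono (KS_body hK h1).cpt hK.ne (sub_KS hK h1) θ) (hs_lt hK h1 h2 θ)

theorem hs_concave (hK : Body K) (θ : ℝ) :
    ConcaveOn ℝ (Ioi (W K)) (fun μ => hs (KS K μ) θ) := by
  refine ⟨convex_Ioi _, fun a ha b hb s t hs' ht hst => ?_⟩
  have hA := KS_body hK (mem_Ioi.1 ha)
  have hB := KS_body hK (mem_Ioi.1 hb)
  have hab : W K < s • a + t • b := (convex_Ioi (W K)) ha hb hs' ht hst
  obtain ⟨x, hx, ex⟩ := exists_hs hA.cpt hA.ne θ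
  obtain ⟨y, hy, ey⟩ := exists_hs hB.cpt hB.ne θ
  have hx' : FF (hs K) x ≤ a := hx
  have hy' : FF (hs K) y ≤ b := hy
  have h1 : s • x + t • y ∈ KS K (s • a + t • b) := by
    change FF (hs K) _ ≤ _
    refine (FF_convex hK x y hs' ht hst).trans ?_
    exact add_le_add (mul_le_mul_of_nonneg_left hx' hs') (mul_le_mul_of_nonneg_left hy' ht)
  have h2 := le_hs (KS_body hK hab).cpt h1 θ
  rw [ip_add, ip_smul, ip_smul, ← ex, ← ey] at h2
  exact h2

theorem hs_contμ (hK : Body K) (θ : ℝ) :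
    ContinuousOn (fun μ => hs (KS K μ) θ) (Ioi (W K)) :=
  (hs_concave hK θ).continuousOn isOpen_Ioi

theorem hs_lip {B : Set E2} (hB : Body B) {R : ℝ} (hR : ∀ x ∈ B, ‖x‖ ≤ R) (a b : ℝ) :
    |hs B a - hs B b| ≤ R * |a - b| := by
  have key : ∀ a b : ℝ, hs B a - hs B b ≤ R * |a - b| := by
    intro a b
    obtain ⟨x, hx, e⟩ := exists_hs hB.cpt hB.ne a
    have h1 := le_hs hB.cpt hx b
    have h2 := (abs_le.1 (ip_lip x a b)).2
    have h3 : ‖x‖ * |a - b| ≤ R * |a - b| := mul_le_mul_of_nonneg_right (hR x hx) (abs_nonneg _)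
    linarith
  rw [abs_le]
  constructor
  · have := key b a
    rw [abs_sub_comm] at this
    linarith
  · exact key a b

/-- continuity along a continuous function of the parameter -/
theorem hs_contY (hK : Body K) {μ0 M : ℝ} (h0 : W K < μ0) {Y : ℝ → ℝ}
    (hY : ContinuousOn Y (Icc μ0 M)) :
    ContinuousOn (fun μ => hs (KS K μ) (Y μ)) (Icc μ0 M) := by
  intro μ1 hμ1
  have hM : W K < M := lt_of_lt_of_le h0 (hμ1.1.trans hμ1.2)
  obtain ⟨R, hR⟩ := (KS_body hK hM).cpt.isBounded.exists_norm_le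
  have h1 : ContinuousWithinAt (fun μ => hs (KS K μ) (Y μ1)) (Icc μ0 M) μ1 :=
    ((hs_contμ hK (Y μ1)).mono fun μ hμ => lt_of_lt_of_le h0 hμ.1) μ1 hμ1
  have h2 : Tendsto (fun μ => hs (KS K μ) (Y μ) - hs (KS K μ) (Y μ1)) (𝓝[Icc μ0 M] μ1) (𝓝 0) := by
    have h3 : Tendsto (fun μ => R * |Y μ - Y μ1|) (𝓝[Icc μ0 M] μ1) (𝓝 0) := by
      have h4 : Tendsto (fun μ => Y μ - Y μ1) (𝓝[Icc μ0 M] μ1) (𝓝 (Y μ1 - Y μ1)) :=
        (hY μ1 hμ1).sub tendsto_const_nhds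
      have h5 := (h4.abs).const_mul R
      rwa [sub_self, abs_zero, mul_zero] at h5
    apply squeeze_zero_norm' _ h3
    filter_upwards [self_mem_nhdsWithin] with μ hμ
    rw [Real.norm_eq_abs]
    exact hs_lip (KS_body hK (lt_of_lt_of_le h0 hμ.1)) (fun x hx => hR x (KS_mono hμ.2 hx)) _ _
  have h6 := h1.tendsto.add h2
  rw [add_zero] at h6
  refine h6.congr fun μ => ?_
  ring

theorem inv_cont {S : Set ℝ} {X H Y : ℝ → ℝ} {F : ℝ → ℝ → ℝ} (hX : ContinuousOn X S)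
    (hH : ContinuousOn H S) (hF : Continuous fun z : ℝ × ℝ => F z.1 z.2)
    (inj : ∀ x, InjOn (F x) (Icc x (x + 2 * π)))
    (hY : ∀ a ∈ S, Y a ∈ Icc (X a) (X a + 2 * π) ∧ F (X a) (Y a) = H a) :
    ContinuousOn Y S := by
  intro a ha
  apply tendsto_of_subseq_tendsto
  intro u hu
  have hu1 : Tendsto u atTop (𝓝 a) := hu.mono_right nhdsWithin_le_nhds
  have hu2 : ∀ᶠ n in atTop, u n ∈ S := hu.eventually self_mem_nhdsWithin
  have hXu : Tendsto (fun n => X (u n)) atTop (𝓝 (X a)) := (hX a ha).tendsto.comp hu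
  have hHu : Tendsto (fun n => H (u n)) atTop (𝓝 (H a)) := (hH a ha).tendsto.comp hu
  have hbd : ∃ᶠ n in atTop, Y (u n) ∈ Icc (X a - 1) (X a + 1 + 2 * π) := by
    apply Eventually.frequently
    filter_upwards [hu2, hXu.eventually (Ioo_mem_nhds (by linarith : X a - 1 < X a)
      (by linarith : X a < X a + 1))] with n hn1 hn2
    obtain ⟨h1, -⟩ := hY _ hn1
    exact ⟨by linarith [h1.1, hn2.1], by linarith [h1.2, hn2.2]⟩
  obtain ⟨y, hy, φ, hφ, hlim⟩ := isCompact_Icc.tendsto_subseq' hbd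
  refine ⟨φ, ?_⟩
  have hye : y = Y a := by
    obtain ⟨ha1, ha2⟩ := hY a ha
    have l1 : Tendsto (fun n => X (u (φ n))) atTop (𝓝 (X a)) := hXu.comp hφ.tendsto_atTop
    have l2 : Tendsto (fun n => F (X (u (φ n))) (Y (u (φ n)))) atTop (𝓝 (F (X a) y)) :=
      (hF.tendsto (X a, y)).comp (l1.prodMk_nhds hlim)
    have l3 : Tendsto (fun n => F (X (u (φ n))) (Y (u (φ n)))) atTop (𝓝 (H a)) := by
      refine (hHu.comp hφ.tendsto_atTop).congr' ?_
      filter_upwards [hφ.tendsto_atTop.eventually hu2] with n hn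
      exact (hY _ hn).2.symm
    have l4 : F (X a) y = F (X a) (Y a) := by rw [ha2]; exact tendsto_nhds_unique l2 l3
    apply inj (X a) _ ha1 l4
    constructor
    · apply le_of_tendsto_of_tendsto l1 hlim
      filter_upwards [hφ.tendsto_atTop.eventually hu2] with n hn
      exact (hY _ hn).1.1
    · apply le_of_tendsto_of_tendsto hlim (l1.add_const (2 * π))
      filter_upwards [hφ.tendsto_atTop.eventually hu2] with n hn
      exact (hY _ hn).1.2
  rw [← hye]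
  exact hlim

end Pool.Agent.X146.Str
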