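import Pool.Agent.X146.Str.Base

set_option autoImplicit false
open MeasureTheory Metric Set Filter Topology Real

/-! The point in which two support lines of a convex body meet. -/

namespace Pool.Agent.X146.Str

open Pool.Agent.Y508

/-- support coordinate in direction `m` of the meeting point -/
noncomputable def ph (H : ℝ → ℝ) (m δ : ℝ) : ℝ := (H (m + δ) + H (m - δ)) / (2 * Real.cos δ)
/-- the other coordinate -/
noncomputable def pk (H : ℝ → ℝ) (m δ : ℝ) : ℝ := (H (m + δ) - H (m - δ)) / (2 * Real.sin δ)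
/-- the meeting point of the support lines with normal angles `m - δ`, `m + δ` -/
noncomputable def pp (H : ℝ → ℝ) (m δ : ℝ) : E2 := ph H m δ • ev m + pk H m δ • ev (m + π / 2)
/-- excess of the string -/
noncomputable def AA (H : ℝ → ℝ) (m δ : ℝ) : ℝ :=
  (H (m + δ) + H (m - δ)) * Real.tan δ - ∫ φ in (m - δ)..(m + δ), H φ

theorem ip_pp (H : ℝ → ℝ) (m δ θ : ℝ) :
    ip (pp H m δ) θ = ph H m δ * Real.cos (θ - m) + pk H m δ * Real.sin (θ - m) := by
  rw [pp, ip_add, ip_smul, ip_smul, ip_ev, ip_ev]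
  congr 2
  rw [← sub_sub, Real.cos_sub_pi_div_two]

theorem ip_pp_m (H : ℝ → ℝ) (m δ : ℝ) : ip (pp H m δ) m = ph H m δ := by
  rw [ip_pp]; simp

theorem ip_pp_m' (H : ℝ → ℝ) (m δ : ℝ) : ip (pp H m δ) (m + π / 2) = pk H m δ := by
  rw [ip_pp]; simp

section

variable {K : Set E2} {m δ : ℝ}

theorem ip_pp_b (H : ℝ → ℝ) (h0 : 0 < δ) (h1 : δ < π / 2) : ip (pp H m δ) (m + δ) = H (m + δ) := by
  have hc : Real.cos δ ≠ 0 := (Real.cos_pos_of_mem_Ioo ⟨by linarith, h1⟩).ne'
  have hs' : Real.sin δ ≠ 0 := (Real.sin_pos_of_pos_of_lt_pi h0 (by linarith)).ne'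
  rw [ip_pp, ph, pk, add_sub_cancel_left]
  field_simp
  ring

theorem ip_pp_a (H : ℝ → ℝ) (h0 : 0 < δ) (h1 : δ < π / 2) : ip (pp H m δ) (m - δ) = H (m - δ) := by
  have hc : Real.cos δ ≠ 0 := (Real.cos_pos_of_mem_Ioo ⟨by linarith, h1⟩).ne'
  have hs' : Real.sin δ ≠ 0 := (Real.sin_pos_of_pos_of_lt_pi h0 (by linarith)).ne'
  rw [ip_pp, ph, pk, sub_sub_cancel_left, Real.cos_neg, Real.sin_neg]
  field_simp
  ring

theorem sin_two (h0 : 0 < δ) (h1 : δ < π / 2) : 0 < Real.sin (m + δ - (m - δ)) := by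
  have : m + δ - (m - δ) = 2 * δ := by ring
  rw [this]
  exact Real.sin_pos_of_pos_of_lt_pi (by linarith) (by linarith)

/-- on the cap -/
theorem cap_in (hK : Body K) (h0 : 0 < δ) (h1 : δ < π / 2) {φ : ℝ} (ha : m - δ ≤ φ)
    (hb : φ ≤ m + δ) : hs K φ ≤ ip (pp (hs K) m δ) φ := by
  have hs2 := sin_two (m := m) h0 h1
  have e1 := hs_arc hK.cpt hK.ne (a := m - δ) (b := m + δ) (θ := φ)
    (Real.sin_nonneg_of_nonneg_of_le_pi (by linarith) (by linarith))
    (Real.sin_nonneg_of_nonneg_of_le_pi (by linarith) (by linarith))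
  have e2 := ip_arc (pp (hs K) m δ) (m - δ) (m + δ) φ
  rw [ip_pp_a _ h0 h1, ip_pp_b _ h0 h1] at e2
  rw [← e2] at e1
  exact le_of_mul_le_mul_left e1 hs2

/-- outside the cap -/
theorem cap_out (hK : Body K) (h0 : 0 < δ) (h1 : δ < π / 2) {φ : ℝ} (ha : m + δ ≤ φ)
    (hb : φ ≤ m - δ + 2 * π) : ip (pp (hs K) m δ) φ ≤ hs K φ := by
  have hs2 := sin_two (m := m) h0 h1
  have ea := ip_pp_a (m := m) (hs K) h0 h1
  have eb := ip_pp_b (m := m) (hs K) h0 h1
  rcases le_total φ (m - δ + π) with h2 | h2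
  · have e1 := hs_arc hK.cpt hK.ne (a := m - δ) (b := φ) (θ := m + δ)
      (Real.sin_nonneg_of_nonneg_of_le_pi (by linarith) (by linarith))
      (Real.sin_nonneg_of_nonneg_of_le_pi (by linarith) (by linarith))
    have e2 := ip_arc (pp (hs K) m δ) (m - δ) φ (m + δ)
    rw [ea, eb] at e2
    rw [e2] at e1
    have e3 : Real.sin (m + δ - (m - δ)) * ip (pp (hs K) m δ) φ
        ≤ Real.sin (m + δ - (m - δ)) * hs K φ := by linarith
    exact le_of_mul_le_mul_left e3 hs2
  · rcases le_total φ (m + δ + π) with h3 | h3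
    · have e1 := cap_in hK h0 h1 (m := m) (φ := φ - π) (by linarith) (by linarith)
      have e2 := width_pos hK (φ - π)
      rw [sub_add_cancel] at e2
      rw [ip_sub_pi] at e1
      linarith
    · have e1 := hs_arc hK.cpt hK.ne (a := φ) (b := m + δ + 2 * π) (θ := m - δ + 2 * π)
        (Real.sin_nonneg_of_nonneg_of_le_pi (by linarith) (by linarith))
        (Real.sin_nonneg_of_nonneg_of_le_pi (by linarith) (by linarith))
      have e2 := ip_arc (pp (hs K) m δ) φ (m + δ + 2 * π) (m - δ + 2 * π)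
      rw [ip_two_pi, ip_two_pi, ea, eb] at e2
      rw [hs_two_pi, hs_two_pi, e2] at e1
      have e4 : m + δ + 2 * π - (m - δ + 2 * π) = m + δ - (m - δ) := by ring
      rw [e4] at e1
      have e3 : Real.sin (m + δ - (m - δ)) * ip (pp (hs K) m δ) φ
        ≤ Real.sin (m + δ - (m - δ)) * hs K φ := by linarith
      exact le_of_mul_le_mul_left e3 hs2

theorem int_ip (x : E2) (m δ : ℝ) : ∫ φ in (m - δ)..(m + δ), ip x φ = 2 * Real.sin δ * ip x m := by
  have h1 : ∀ φ ∈ uIcc (m - δ) (m + δ), HasDerivAt (fun φ => - ip x (φ + π / 2)) (ip x φ) φ := by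
    intro φ _
    have h2 := (ipd x (φ + π / 2)).comp_add_const φ (π / 2)
    have h3 : φ + π / 2 + π / 2 = φ + π := by ring
    rw [h3, ip_add_pi] at h2
    have := h2.neg
    rw [neg_neg] at this
    exact this
  rw [intervalIntegral.integral_eq_sub_of_hasDerivAt h1 ((cont_ip x).intervalIntegrable _ _)]
  have e0 : ∀ a : ℝ, - ip x (a + δ) - - ip x (a - δ) = - (2 * Real.sin δ * ip x (a + π / 2)) := by
    intro a
    simp only [ip, Real.cos_add_pi_div_two, Real.sin_add_pi_div_two]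
    simp only [Real.cos_add, Real.cos_sub, Real.sin_add, Real.sin_sub]
    ring
  have e1 : m + δ + π / 2 = (m + π / 2) + δ := by ring
  have e2 : m - δ + π / 2 = (m + π / 2) - δ := by ring
  have e3 : m + π / 2 + π / 2 = m + π := by ring
  rw [e1, e2, e0, e3, ip_add_pi]
  ring

/-- the lower bound for the perimeter function given by a cap -/
theorem FF_split (hK : Body K) (y : E2) (m δ : ℝ) : FF (hs K) y =
    (∫ φ in (m - δ)..(m + δ), ip y φ) + (∫ φ in (m + δ)..(m - δ + 2 * π), hs K φ)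
    + (∫ φ in (m - δ)..(m + δ), (max (hs K φ) (ip y φ) - ip y φ))
    + ∫ φ in (m + δ)..(m - δ + 2 * π), (max (hs K φ) (ip y φ) - hs K φ) := by
  have c1 := cont_mx hK y
  have c2 := cont_ip y
  have c3 := cont_hs hK.cpt
  rw [intervalIntegral.integral_sub (c1.intervalIntegrable _ _) (c2.intervalIntegrable _ _),
    intervalIntegral.integral_sub (c1.intervalIntegrable _ _) (c3.intervalIntegrable _ _),
    ← FF_shift y (m - δ), ← intervalIntegral.integral_add_adjacent_intervals
      (b := m + δ) (c1.intervalIntegrable _ _) (c1.intervalIntegrable _ _)]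
  ring

theorem W_split (hK : Body K) (m δ : ℝ) : W K =
    (∫ φ in (m - δ)..(m + δ), hs K φ) + ∫ φ in (m + δ)..(m - δ + 2 * π), hs K φ := by
  have c3 := cont_hs hK.cpt
  rw [← W_sh (K := K) (m - δ), ← intervalIntegral.integral_add_adjacent_intervals
      (b := m + δ) (c3.intervalIntegrable _ _) (c3.intervalIntegrable _ _)]

theorem FF_pp (hK : Body K) (h0 : 0 < δ) (h1 : δ < π / 2) :
    FF (hs K) (pp (hs K) m δ) = W K + AA (hs K) m δ := by
  have hc : Real.cos δ ≠ 0 := (Real.cos_pos_of_mem_Ioo ⟨by linarith, h1⟩).ne'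
  rw [FF_split hK _ m δ, W_split hK m δ, AA, int_ip, ip_pp_m]
  have e1 : ∫ φ in (m - δ)..(m + δ), (max (hs K φ) (ip (pp (hs K) m δ) φ)
      - ip (pp (hs K) m δ) φ) = 0 := by
    rw [intervalIntegral.integral_congr (g := fun _ => (0 : ℝ))]
    · simp
    · intro φ hφ
      rw [uIcc_of_le (by linarith)] at hφ
      simp only
      rw [max_eq_right (cap_in hK h0 h1 hφ.1 hφ.2), sub_self]
  have e2 : ∫ φ in (m + δ)..(m - δ + 2 * π), (max (hs K φ) (ip (pp (hs K) m δ) φ)
      - hs K φ) = 0 := by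
    rw [intervalIntegral.integral_congr (g := fun _ => (0 : ℝ))]
    · simp
    · intro φ hφ
      rw [uIcc_of_le (by linarith)] at hφ
      simp only
      rw [max_eq_left (cap_out hK h0 h1 hφ.1 hφ.2), sub_self]
  rw [e1, e2, ph, Real.tan_eq_sin_div_cos]
  field_simp
  ring

theorem FF_sub (hK : Body K) (h0 : 0 < δ) (h1 : δ < π / 2) (y : E2) :
    FF (hs K) (pp (hs K) m δ) + 2 * Real.sin δ * (ip y m - ph (hs K) m δ) ≤ FF (hs K) y := by
  have hc : Real.cos δ ≠ 0 := (Real.cos_pos_of_mem_Ioo ⟨by linarith, h1⟩).ne'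
  have e1 : 0 ≤ ∫ φ in (m - δ)..(m + δ), (max (hs K φ) (ip y φ) - ip y φ) :=
    intervalIntegral.integral_nonneg (by linarith) fun φ _ => sub_nonneg.2 (le_max_right _ _)
  have e2 : 0 ≤ ∫ φ in (m + δ)..(m - δ + 2 * π), (max (hs K φ) (ip y φ) - hs K φ) :=
    intervalIntegral.integral_nonneg (by linarith) fun φ _ => sub_nonneg.2 (le_max_left _ _)
  rw [FF_pp hK h0 h1, FF_split hK y m δ, W_split hK m δ, AA, int_ip]
  have e3 : (hs K (m + δ) + hs K (m - δ)) * Real.tan δ = 2 * Real.sin δ * ph (hs K) m δ := by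
    rw [ph, Real.tan_eq_sin_div_cos]
    field_simp
  rw [e3]
  linarith

theorem FF_uniq (hK : Body K) (h0 : 0 < δ) (h1 : δ < π / 2) {y : E2}
    (hy : FF (hs K) y ≤ FF (hs K) (pp (hs K) m δ)) (hm : ph (hs K) m δ ≤ ip y m) :
    y = pp (hs K) m δ := by
  have hc : Real.cos δ ≠ 0 := (Real.cos_pos_of_mem_Ioo ⟨by linarith, h1⟩).ne'
  have hsp : 0 < Real.sin δ := Real.sin_pos_of_pos_of_lt_pi h0 (by linarith)
  have c1 := cont_mx hK y
  have c2 := cont_ip y
  have c3 := cont_hs hK.cpt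
  have e1 : 0 ≤ ∫ φ in (m - δ)..(m + δ), (max (hs K φ) (ip y φ) - ip y φ) :=
    intervalIntegral.integral_nonneg (by linarith) fun φ _ => sub_nonneg.2 (le_max_right _ _)
  have e2 : 0 ≤ ∫ φ in (m + δ)..(m - δ + 2 * π), (max (hs K φ) (ip y φ) - hs K φ) :=
    intervalIntegral.integral_nonneg (by linarith) fun φ _ => sub_nonneg.2 (le_max_left _ _)
  have e3 : (hs K (m + δ) + hs K (m - δ)) * Real.tan δ = 2 * Real.sin δ * ph (hs K) m δ := by
    rw [ph, Real.tan_eq_sin_div_cos]
    field_simp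
  rw [FF_pp hK h0 h1, FF_split hK y m δ, W_split hK m δ, AA, int_ip, e3] at hy
  have e4 : 0 ≤ 2 * Real.sin δ * (ip y m - ph (hs K) m δ) :=
    mul_nonneg (by positivity) (sub_nonneg.2 hm)
  have z1 : ∫ φ in (m - δ)..(m + δ), (max (hs K φ) (ip y φ) - ip y φ) = 0 := by
    apply le_antisymm _ e1
    linarith
  have z2 : ∫ φ in (m + δ)..(m - δ + 2 * π), (max (hs K φ) (ip y φ) - hs K φ) = 0 := by
    apply le_antisymm _ e2
    linarith
  have p1 : ∀ φ ∈ Icc (m - δ) (m + δ), hs K φ ≤ ip y φ := by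
    intro φ hφ
    by_contra hcon
    push Not at hcon
    have : 0 < ∫ φ in (m - δ)..(m + δ), (max (hs K φ) (ip y φ) - ip y φ) := by
      apply intervalIntegral.integral_pos (by linarith) (c1.sub c2).continuousOn
      · intro ψ _
        exact sub_nonneg.2 (le_max_right _ _)
      · exact ⟨φ, hφ, sub_pos.2 (lt_of_lt_of_le hcon (le_max_left _ _))⟩
    rw [z1] at this
    exact lt_irrefl _ this
  have p2 : ∀ φ ∈ Icc (m + δ) (m - δ + 2 * π), ip y φ ≤ hs K φ := by
    intro φ hφ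
    by_contra hcon
    push Not at hcon
    have : 0 < ∫ φ in (m + δ)..(m - δ + 2 * π), (max (hs K φ) (ip y φ) - hs K φ) := by
      apply intervalIntegral.integral_pos (by linarith) (c1.sub c3).continuousOn
      · intro ψ _
        exact sub_nonneg.2 (le_max_left _ _)
      · exact ⟨φ, hφ, sub_pos.2 (lt_of_lt_of_le hcon (le_max_right _ _))⟩
    rw [z2] at this
    exact lt_irrefl _ this
  have qa : ip y (m - δ) = hs K (m - δ) := by
    apply le_antisymm
    · have := p2 (m - δ + 2 * π) ⟨by linarith, le_rfl⟩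
      rwa [ip_two_pi, hs_two_pi] at this
    · exact p1 _ ⟨le_rfl, by linarith⟩
  have qb : ip y (m + δ) = hs K (m + δ) :=
    le_antisymm (p2 _ ⟨le_rfl, by linarith⟩) (p1 _ ⟨by linarith, le_rfl⟩)
  have ra := ip_pp_a (m := m) (hs K) h0 h1
  have rb := ip_pp_b (m := m) (hs K) h0 h1
  have hs2 := sin_two (m := m) h0 h1
  have key : ∀ θ, ip (y - pp (hs K) m δ) θ = 0 := by
    intro θ
    have e := ip_arc (y - pp (hs K) m δ) (m - δ) (m + δ) θ
    rw [ip_sub _ _ (m - δ), ip_sub _ _ (m + δ), qa, qb, ra, rb, sub_self, sub_self, mul_zero,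
      mul_zero, add_zero] at e
    exact (mul_eq_zero.1 e).resolve_left hs2.ne'
  have hz := int_abs_ip (y - pp (hs K) m δ)
  simp only [key, abs_zero, intervalIntegral.integral_zero] at hz
  have : ‖y - pp (hs K) m δ‖ = 0 := by linarith
  exact sub_eq_zero.1 (norm_eq_zero.1 this)

/-- lower bound for the excess -/
theorem AA_ge (hK : Body K) : ∃ r R : ℝ, 0 < r ∧ 0 ≤ R ∧ ∀ m δ : ℝ, 0 ≤ δ → δ < π / 2 →
    r * Real.tan δ - R ≤ AA (hs K) m δ := by
  obtain ⟨o, ho⟩ := hK.int
  obtain ⟨r, hr, hb⟩ := Metric.isOpen_iff.1 isOpen_interior o ho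
  obtain ⟨R, hR0, hR⟩ := hs_bd hK
  have hlow : ∀ θ, ip o θ + r / 2 ≤ hs K θ := by
    intro θ
    have h1 : o + (r / 2) • ev θ ∈ K := by
      apply interior_subset
      apply hb
      rw [mem_ball, dist_eq_norm, add_sub_cancel_left, norm_smul, norm_ev, mul_one,
        Real.norm_eq_abs, abs_of_pos (by positivity)]
      linarith
    have h2 := le_hs hK.cpt h1 θ
    rwa [ip_add, ip_smul, ip_ev, sub_self, Real.cos_zero, mul_one] at h2
  refine ⟨r, 2 * ‖o‖ + π * R, hr, by positivity, fun m δ h0 h1 => ?_⟩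
  have hc : 0 < Real.cos δ := Real.cos_pos_of_mem_Ioo ⟨by linarith, h1⟩
  have hsn : 0 ≤ Real.sin δ := Real.sin_nonneg_of_nonneg_of_le_pi h0 (by linarith)
  have ht : 0 ≤ Real.tan δ := Real.tan_nonneg_of_nonneg_of_le_pi_div_two h0 h1.le
  have i1 : ∫ φ in (m - δ)..(m + δ), hs K φ ≤ π * R := by
    have : ∫ φ in (m - δ)..(m + δ), hs K φ ≤ ∫ φ in (m - δ)..(m + δ), R :=
      intervalIntegral.integral_mono_on (by linarith) ((cont_hs hK.cpt).intervalIntegrable _ _)
        (continuous_const.intervalIntegrable _ _) fun φ _ => (abs_le.1 (hR φ)).2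
    rw [intervalIntegral.integral_const, smul_eq_mul] at this
    refine this.trans ?_
    apply mul_le_mul_of_nonneg_right _ hR0
    linarith
  have i2 : r * Real.tan δ - 2 * ‖o‖ ≤ (hs K (m + δ) + hs K (m - δ)) * Real.tan δ := by
    have e1 : ip o (m + δ) + ip o (m - δ) = 2 * Real.cos δ * ip o m := by
      simp only [ip, Real.cos_add, Real.cos_sub, Real.sin_add, Real.sin_sub]
      ring
    have e2 : (ip o (m + δ) + ip o (m - δ)) * Real.tan δ = 2 * Real.sin δ * ip o m := by
      rw [e1, Real.tan_eq_sin_div_cos]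
      field_simp
    have e3 : -(2 * ‖o‖) ≤ 2 * Real.sin δ * ip o m := by
      have a1 := abs_ip_le o m
      have a2 : |2 * Real.sin δ * ip o m| ≤ 2 * ‖o‖ := by
        rw [abs_mul, abs_mul, abs_two, abs_of_nonneg hsn]
        have := Real.sin_le_one δ
        nlinarith [abs_nonneg (ip o m), norm_nonneg o]
      exact (abs_le.1 a2).1
    have e4 : (ip o (m + δ) + ip o (m - δ) + r) * Real.tan δ
        ≤ (hs K (m + δ) + hs K (m - δ)) * Real.tan δ := by
      apply mul_le_mul_of_nonneg_right _ ht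
      linarith [hlow (m + δ), hlow (m - δ)]
    nlinarith
  unfold AA
  linarith

theorem AA_zero (H : ℝ → ℝ) (m : ℝ) : AA H m 0 = 0 := by simp [AA]

theorem cont_int (hK : Body K) : Continuous fun z : ℝ × ℝ => ∫ φ in z.1..z.2, hs K φ := by
  have h1 : ∀ z : ℝ × ℝ, ∫ φ in z.1..z.2, hs K φ
      = (∫ φ in (0 : ℝ)..z.2, hs K φ) - ∫ φ in (0 : ℝ)..z.1, hs K φ := by
    intro z
    rw [intervalIntegral.integral_interval_sub_left] <;>
      exact (cont_hs hK.cpt).intervalIntegrable _ _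
  have h2 : Continuous fun z : ℝ => ∫ φ in (0 : ℝ)..z, hs K φ :=
    intervalIntegral.continuous_primitive (fun a b => (cont_hs hK.cpt).intervalIntegrable a b) 0
  simp only [h1]
  exact (h2.comp continuous_snd).sub (h2.comp continuous_fst)

theorem AA_contOn (hK : Body K) :
    ContinuousOn (fun z : ℝ × ℝ => AA (hs K) z.1 z.2) {z | -(π / 2) < z.2 ∧ z.2 < π / 2} := by
  unfold AA
  have c3 := cont_hs hK.cpt
  apply ContinuousOn.sub
  · apply ContinuousOn.mul
    · apply Continuous.continuousOn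
      fun_prop
    · intro z hz
      have : Real.cos z.2 ≠ 0 := (Real.cos_pos_of_mem_Ioo ⟨hz.1, hz.2⟩).ne'
      exact ((Real.continuousAt_tan.2 this).comp continuous_snd.continuousAt).continuousWithinAt
  · exact ((cont_int hK).comp (by fun_prop : Continuous fun z : ℝ × ℝ => (z.1 - z.2, z.1 + z.2))).continuousOn

theorem AA_ex (hK : Body K) (m : ℝ) {C : ℝ} (hC : 0 < C) :
    ∃ δ, 0 < δ ∧ δ < π / 2 ∧ AA (hs K) m δ = C := by
  obtain ⟨r, R, hr, hR, hge⟩ := AA_ge hK
  set d1 := Real.arctan ((C + R) / r) with hd1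
  have q1 : 0 < d1 := by
    rw [hd1, Real.arctan_pos]; positivity
  have q2 : d1 < π / 2 := Real.arctan_lt_pi_div_two _
  have q3 : C ≤ AA (hs K) m d1 := by
    have := hge m d1 q1.le q2
    rw [hd1, Real.tan_arctan] at this
    rw [hd1]
    calc C = r * ((C + R) / r) - R := by field_simp; ring
      _ ≤ _ := this
  have hcont : ContinuousOn (fun δ => AA (hs K) m δ) (Icc 0 d1) := by
    apply (AA_contOn hK).comp (by fun_prop : Continuous fun δ : ℝ => (m, δ)).continuousOn
    intro δ hδ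
    exact ⟨by linarith [hδ.1, Real.pi_pos], by linarith [hδ.2]⟩
  have hiv := intermediate_value_Icc q1.le hcont
  rw [AA_zero] at hiv
  obtain ⟨δ, hδ, e⟩ := hiv ⟨hC.le, q3⟩
  refine ⟨δ, ?_, by linarith [hδ.2], e⟩
  rcases eq_or_lt_of_le hδ.1 with h | h
  · simp only at e
    rw [← h, AA_zero] at e
    linarith
  · exact h

/-- support function of the sublevel sets -/
theorem KS_hs (hK : Body K) (h0 : 0 < δ) (h1 : δ < π / 2) (hA : 0 < AA (hs K) m δ) :
    hs (KS K (W K + AA (hs K) m δ)) m = ph (hs K) m δ := by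
  have hB := KS_body hK (μ := W K + AA (hs K) m δ) (by linarith)
  have hsp : 0 < Real.sin δ := Real.sin_pos_of_pos_of_lt_pi h0 (by linarith)
  apply le_antisymm
  · apply hs_le hB.ne
    intro y hy
    have h2 : FF (hs K) y ≤ W K + AA (hs K) m δ := hy
    have h3 := FF_sub hK h0 h1 (m := m) y
    rw [FF_pp hK h0 h1] at h3
    by_contra hcon
    push Not at hcon
    have : 0 < 2 * Real.sin δ * (ip y m - ph (hs K) m δ) :=
      mul_pos (by positivity) (sub_pos.2 hcon)
    linarith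
  · rw [← ip_pp_m]
    apply le_hs hB.cpt
    change FF (hs K) _ ≤ _
    rw [FF_pp hK h0 h1]

/-- the support points of the sublevel sets are unique -/
theorem KS_uniq (hK : Body K) {ν : ℝ} (hν : W K < ν) (m : ℝ) {x y : E2} (hx : x ∈ KS K ν)
    (hy : y ∈ KS K ν) (hxm : ip x m = hs (KS K ν) m) (hym : ip y m = hs (KS K ν) m) : x = y := by
  obtain ⟨δ, h0, h1, hA⟩ := AA_ex hK m (C := ν - W K) (by linarith)
  have e : ν = W K + AA (hs K) m δ := by rw [hA]; ring
  subst e
  have h2 := KS_hs hK h0 h1 (m := m) (by linarith)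
  have key : ∀ z ∈ KS K (W K + AA (hs K) m δ), ip z m = hs (KS K (W K + AA (hs K) m δ)) m →
      z = pp (hs K) m δ := by
    intro z hz hzm
    apply FF_uniq hK h0 h1
    · rw [FF_pp hK h0 h1]; exact hz
    · rw [hzm, h2]
  rw [key x hx hxm, key y hy hym]

end

/-- a body with unique support points has a continuously differentiable support function -/
theorem hs_C1 {B : Set E2} (hB : Body B) (hu : ∀ (m : ℝ) (x y : E2), x ∈ B → y ∈ B →
    ip x m = hs B m → ip y m = hs B m → x = y) :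
    ∃ c : ℝ → E2, Continuous c ∧ (∀ m, c m ∈ B) ∧ (∀ m, ip (c m) m = hs B m) ∧
      (∀ m, HasDerivAt (hs B) (ip (c m) (m + π / 2)) m) ∧ ∀ m, c (m + 2 * π) = c m := by
  choose c hc1 hc2 using fun m => exists_hs hB.cpt hB.ne m
  have hcont : Continuous c := by
    rw [continuous_iff_continuousAt]
    intro m
    apply tendsto_of_subseq_tendsto
    intro u hu1
    obtain ⟨x, hx, φ, hφ, hlim⟩ := hB.cpt.tendsto_subseq (fun n => hc1 (u n))
    refine ⟨φ, ?_⟩
    have hxe : x = c m := by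
      apply hu m x (c m) hx (hc1 m) _ (hc2 m).symm
      have l1 : Tendsto (fun n => ip (c (u (φ n))) (u (φ n))) atTop (𝓝 (ip x m)) := by
        have l2 : Tendsto (fun n => (u (φ n), c (u (φ n)))) atTop (𝓝 (m, x)) :=
          (hu1.comp hφ.tendsto_atTop).prodMk_nhds hlim
        exact (cont_ip2.tendsto (m, x)).comp l2
      have l3 : Tendsto (fun n => ip (c (u (φ n))) (u (φ n))) atTop (𝓝 (hs B m)) := by
        have l4 := ((cont_hs hB.cpt).tendsto m).comp (hu1.comp hφ.tendsto_atTop)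
        exact l4.congr fun n => hc2 _
      exact tendsto_nhds_unique l1 l3
    rw [← hxe]
    exact hlim
  refine ⟨c, hcont, hc1, fun m => (hc2 m).symm, fun m => ?_, fun m => ?_⟩
  · have h1 : HasDerivAt (fun t => hs B t - ip (c m) t) 0 m := by
      rw [hasDerivAt_iff_isLittleO, Asymptotics.isLittleO_iff]
      intro ε hε
      have hev : ∀ᶠ t in 𝓝 m, ‖c t - c m‖ < ε := by
        have := (hcont.tendsto m).eventually (Metric.ball_mem_nhds (c m) hε)
        filter_upwards [this] with t ht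
        rwa [← dist_eq_norm]
      filter_upwards [hev] with t ht
      have a1 : ip (c m) t ≤ hs B t := le_hs hB.cpt (hc1 m) t
      have a2 : ip (c t) m ≤ hs B m := le_hs hB.cpt (hc1 t) m
      have a3 := hc2 m
      have a4 := hc2 t
      have a5 := (abs_le.1 (ip_lip (c t - c m) t m)).2
      rw [ip_sub, ip_sub] at a5
      rw [smul_zero, sub_zero, Real.norm_eq_abs, Real.norm_eq_abs, abs_le]
      have a6 : ‖c t - c m‖ * |t - m| ≤ ε * |t - m| :=
        mul_le_mul_of_nonneg_right ht.le (abs_nonneg _)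
      have a7 : 0 ≤ ε * |t - m| := by positivity
      constructor
      · linarith
      · linarith
    have h2 := h1.add (ipd (c m) m)
    rw [zero_add] at h2
    refine h2.congr_of_eventuallyEq (Eventually.of_forall fun t => ?_)
    simp
  · apply hu m _ _ (hc1 _) (hc1 _) _ (hc2 m).symm
    have := hc2 (m + 2 * π)
    rw [hs_two_pi, ip_two_pi] at this
    exact this.symm

end Pool.Agent.X146.Str
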