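import Pool.Agent.X146.Str.Pt
import Pool.Agent.H283R2.BK.Defs

set_option autoImplicit false
open MeasureTheory Metric Set Filter Topology Real

/-! Regularity of the string construction over a smooth strictly convex body. -/

namespace Pool.Agent.X146.Str

open Pool.Agent.Y508

theorem impl_deriv {A : ℝ → ℝ → ℝ} {f : ℝ → ℝ} {x0 a b c : ℝ}
    (hA : HasFDerivAt (fun z : ℝ × ℝ => A z.1 z.2)
      ((ContinuousLinearMap.toSpanSingleton ℝ a).coprod (ContinuousLinearMap.toSpanSingleton ℝ b))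
      (x0, f x0)) (hf : ContinuousAt f x0) (hc : ∀ x, A x (f x) = c) (hb : b ≠ 0) :
    HasDerivAt f (-(a / b)) x0 := by
  rw [hasDerivAt_iff_isLittleO, Asymptotics.isLittleO_iff]
  intro ε hε
  have hb' : 0 < |b| := abs_pos.2 hb
  set K := 2 * (|a| + |b|) / |b| with hK
  have hK0 : 0 ≤ K := by positivity
  set η := min (|b| / 2) (ε * |b| / (1 + K)) with hη
  have hη0 : 0 < η := lt_min (by positivity) (by positivity)
  have h1 := hA.isLittleO
  rw [Asymptotics.isLittleO_iff] at h1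
  have h2 := h1 hη0
  have ht : Tendsto (fun x => (x, f x)) (𝓝 x0) (𝓝 (x0, f x0)) :=
    (continuousAt_id.prodMk hf : ContinuousAt (fun x => (x, f x)) x0)
  filter_upwards [ht.eventually h2] with x hx
  simp only [hc] at hx
  rw [sub_self, zero_sub, norm_neg] at hx
  have e1 : ((ContinuousLinearMap.toSpanSingleton ℝ a).coprod
      (ContinuousLinearMap.toSpanSingleton ℝ b)) ((x, f x) - (x0, f x0))
      = a * (x - x0) + b * (f x - f x0) := by
    simp [ContinuousLinearMap.coprod_apply]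
    ring
  rw [e1] at hx
  have e2 : ‖((x, f x) : ℝ × ℝ) - (x0, f x0)‖ ≤ |x - x0| + |f x - f x0| := by
    rw [Prod.mk_sub_mk, Prod.norm_def]
    simp only [Real.norm_eq_abs]
    exact max_le (by linarith [abs_nonneg (f x - f x0)]) (by linarith [abs_nonneg (x - x0)])
  set d := x - x0
  set e := f x - f x0
  have hx' : |a * d + b * e| ≤ η * (|d| + |e|) :=
    hx.trans (mul_le_mul_of_nonneg_left e2 hη0.le)
  have l1 : |b| * |e| ≤ |a| * |d| + η * (|d| + |e|) := by
    have : b * e = (a * d + b * e) - a * d := by ring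
    calc |b| * |e| = |b * e| := (abs_mul _ _).symm
      _ = |(a * d + b * e) - a * d| := by rw [← this]
      _ ≤ |a * d + b * e| + |a * d| := abs_sub _ _
      _ ≤ _ := by rw [abs_mul a d]; linarith
  have l2 : η ≤ |b| / 2 := min_le_left _ _
  have l3 : |e| ≤ K * |d| := by
    have q1 : η * |e| ≤ |b| / 2 * |e| := mul_le_mul_of_nonneg_right l2 (abs_nonneg _)
    have q2 : η * |d| ≤ |b| / 2 * |d| := mul_le_mul_of_nonneg_right l2 (abs_nonneg _)
    have q3 : |b| * |e| ≤ 2 * (|a| + |b|) * |d| := by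
      nlinarith [abs_nonneg d, abs_nonneg e, abs_nonneg a]
    have q4 : |e| = (|b| * |e|) / |b| := by field_simp
    rw [q4, hK, div_mul_eq_mul_div]
    exact div_le_div_of_nonneg_right q3 hb'.le
  have l4 : η ≤ ε * |b| / (1 + K) := min_le_right _ _
  have l5 : η * (1 + K) ≤ ε * |b| := by
    rwa [le_div_iff₀ (by positivity)] at l4
  have e3 : e - d • (-(a / b)) = (a * d + b * e) / b := by
    rw [smul_eq_mul]
    field_simp
    ring
  rw [e3, Real.norm_eq_abs, Real.norm_eq_abs, abs_div, div_le_iff₀ hb']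
  calc |a * d + b * e| ≤ η * (|d| + |e|) := hx'
    _ ≤ η * (|d| + K * |d|) := mul_le_mul_of_nonneg_left (by linarith) hη0.le
    _ = (η * (1 + K)) * |d| := by ring
    _ ≤ (ε * |b|) * |d| := mul_le_mul_of_nonneg_right l5 (abs_nonneg _)
    _ = ε * |d| * |b| := by ring

/-- a body with continuously differentiable support function -/
structure Smooth (B : Set E2) (Hd : ℝ → ℝ) : Prop where
  body : Body B
  cd : Continuous Hd
  dh : ∀ m, HasDerivAt (hs B) (Hd m) m
  pd : ∀ m, Hd (m + 2 * π) = Hd m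
  mem : ∀ m, hs B m • ev m + Hd m • ev (m + π / 2) ∈ B

theorem smooth_of_uniq {B : Set E2} (hB : Body B) (hu : ∀ (m : ℝ) (x y : E2), x ∈ B → y ∈ B →
    ip x m = hs B m → ip y m = hs B m → x = y) : ∃ Hd, Smooth B Hd := by
  obtain ⟨c, h1, h2, h3, h4, h5⟩ := hs_C1 hB hu
  refine ⟨fun m => ip (c m) (m + π / 2), hB, ?_, h4, fun m => ?_, fun m => ?_⟩
  · exact cont_ip2.comp (by fun_prop : Continuous fun m => (m + π / 2, c m))
  · have e : m + 2 * π + π / 2 = (m + π / 2) + 2 * π := by ring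
    rw [h5, e, ip_two_pi]
  · rw [← h3, ← decomp]
    exact h2 m

theorem smooth_KS {K : Set E2} (hK : Body K) {ν : ℝ} (hν : W K < ν) :
    ∃ Hd, Smooth (KS K ν) Hd :=
  smooth_of_uniq (KS_body hK hν) fun m _ _ hx hy h1 h2 => KS_uniq hK hν m hx hy h1 h2

/-- tangent lengths -/
noncomputable def tp (H Hd : ℝ → ℝ) (m δ : ℝ) : ℝ :=
  Hd (m + δ) + ph H m δ * Real.sin δ - pk H m δ * Real.cos δ
noncomputable def tm (H Hd : ℝ → ℝ) (m δ : ℝ) : ℝ :=
  ph H m δ * Real.sin δ + pk H m δ * Real.cos δ - Hd (m - δ)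

theorem ip_exp (x : E2) (b θ : ℝ) :
    ip x θ = ip x b * Real.cos (θ - b) + ip x (b + π / 2) * Real.sin (θ - b) := by
  conv_lhs => rw [decomp x b]
  rw [ip_add, ip_smul, ip_smul, ip_ev, ip_ev, ← sub_sub, Real.cos_sub_pi_div_two]

theorem eq_of_ip {x y : E2} {b : ℝ} (h1 : ip x b = ip y b)
    (h2 : ip x (b + π / 2) = ip y (b + π / 2)) : x = y := by
  rw [decomp x b, decomp y b, h1, h2]

section

variable {B : Set E2} {Hd : ℝ → ℝ} {m δ : ℝ}

theorem ip_pp_bp (H : ℝ → ℝ) : ip (pp H m δ) (m + δ + π / 2)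
    = - (ph H m δ * Real.sin δ) + pk H m δ * Real.cos δ := by
  rw [ip_pp]
  have e : m + δ + π / 2 - m = δ + π / 2 := by ring
  rw [e, Real.cos_add_pi_div_two, Real.sin_add_pi_div_two]
  ring

theorem ip_pp_ap (H : ℝ → ℝ) : ip (pp H m δ) (m - δ + π / 2)
    = ph H m δ * Real.sin δ + pk H m δ * Real.cos δ := by
  rw [ip_pp]
  have e : m - δ + π / 2 - m = - δ + π / 2 := by ring
  rw [e, Real.cos_add_pi_div_two, Real.sin_add_pi_div_two, Real.sin_neg, Real.cos_neg]
  ring

theorem ip_con (b : ℝ) :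
    ip (hs B b • ev b + Hd b • ev (b + π / 2)) b = hs B b := by
  rw [ip_add, ip_smul, ip_smul, ip_ev, ip_ev]
  simp

theorem ip_con' (b : ℝ) :
    ip (hs B b • ev b + Hd b • ev (b + π / 2)) (b + π / 2) = Hd b := by
  rw [ip_add, ip_smul, ip_smul, ip_ev, ip_ev]
  simp

theorem tp_nonneg (hB : Smooth B Hd) (h0 : 0 < δ) (h1 : δ < π / 2) :
    0 ≤ tp (hs B) Hd m δ ∧ (tp (hs B) Hd m δ = 0 → pp (hs B) m δ ∈ B) := by
  have hs2 := sin_two (m := m) h0 h1
  set c := hs B (m + δ) • ev (m + δ) + Hd (m + δ) • ev (m + δ + π / 2) with hc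
  have c1 : ip c (m + δ) = hs B (m + δ) := ip_con _
  have c2 : ip c (m + δ + π / 2) = Hd (m + δ) := ip_con' _
  have e1 := ip_exp c (m + δ) (m - δ)
  have e2 := ip_exp (pp (hs B) m δ) (m + δ) (m - δ)
  have e3 : ip c (m - δ) ≤ hs B (m - δ) := le_hs hB.body.cpt (hB.mem _) _
  rw [ip_pp_a _ h0 h1, ip_pp_b _ h0 h1, ip_pp_bp] at e2
  rw [c1, c2] at e1
  have e4 : Real.sin (m - δ - (m + δ)) = - Real.sin (m + δ - (m - δ)) := by
    rw [← Real.sin_neg]; congr 1; ring
  rw [e4] at e1 e2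
  constructor
  · by_contra hcon
    push Not at hcon
    unfold tp at hcon
    have : 0 < - (Hd (m + δ) + ph (hs B) m δ * Real.sin δ - pk (hs B) m δ * Real.cos δ)
        * Real.sin (m + δ - (m - δ)) := mul_pos (by linarith) hs2
    nlinarith
  · intro hz
    have : pp (hs B) m δ = c := by
      apply eq_of_ip (b := m + δ)
      · rw [ip_pp_b _ h0 h1, c1]
      · rw [ip_pp_bp, c2]
        unfold tp at hz
        linarith
    rw [this]
    exact hB.mem _

theorem tm_nonneg (hB : Smooth B Hd) (h0 : 0 < δ) (h1 : δ < π / 2) :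
    0 ≤ tm (hs B) Hd m δ ∧ (tm (hs B) Hd m δ = 0 → pp (hs B) m δ ∈ B) := by
  have hs2 := sin_two (m := m) h0 h1
  set c := hs B (m - δ) • ev (m - δ) + Hd (m - δ) • ev (m - δ + π / 2) with hc
  have c1 : ip c (m - δ) = hs B (m - δ) := ip_con _
  have c2 : ip c (m - δ + π / 2) = Hd (m - δ) := ip_con' _
  have e1 := ip_exp c (m - δ) (m + δ)
  have e2 := ip_exp (pp (hs B) m δ) (m - δ) (m + δ)
  have e3 : ip c (m + δ) ≤ hs B (m + δ) := le_hs hB.body.cpt (hB.mem _) _
  rw [ip_pp_a _ h0 h1, ip_pp_b _ h0 h1, ip_pp_ap] at e2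
  rw [c1, c2] at e1
  constructor
  · by_contra hcon
    push Not at hcon
    unfold tm at hcon
    have : 0 < - (ph (hs B) m δ * Real.sin δ + pk (hs B) m δ * Real.cos δ - Hd (m - δ))
        * Real.sin (m + δ - (m - δ)) := mul_pos (by linarith) hs2
    nlinarith
  · intro hz
    have : pp (hs B) m δ = c := by
      apply eq_of_ip (b := m - δ)
      · rw [ip_pp_a _ h0 h1, c1]
      · rw [ip_pp_ap, c2]
        unfold tm at hz
        linarith
    rw [this]
    exact hB.mem _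

theorem tpm_pos (hB : Smooth B Hd) (h0 : 0 < δ) (h1 : δ < π / 2) (hA : 0 < AA (hs B) m δ) :
    0 < tp (hs B) Hd m δ ∧ 0 < tm (hs B) Hd m δ := by
  have hn : pp (hs B) m δ ∉ B := by
    intro hm
    have := FF_of_mem hB.body hm
    rw [FF_pp hB.body h0 h1] at this
    linarith
  obtain ⟨p1, p2⟩ := tp_nonneg hB h0 h1 (m := m)
  obtain ⟨q1, q2⟩ := tm_nonneg hB h0 h1 (m := m)
  exact ⟨lt_of_le_of_ne p1 fun h => hn (p2 h.symm), lt_of_le_of_ne q1 fun h => hn (q2 h.symm)⟩

theorem hsP (H : ℝ → ℝ) (h0 : 0 < δ) (h1 : δ < π / 2) :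
    H (m + δ) = ph H m δ * Real.cos δ + pk H m δ * Real.sin δ ∧
    H (m - δ) = ph H m δ * Real.cos δ - pk H m δ * Real.sin δ := by
  have hc : Real.cos δ ≠ 0 := (Real.cos_pos_of_mem_Ioo ⟨by linarith, h1⟩).ne'
  have hs' : Real.sin δ ≠ 0 := (Real.sin_pos_of_pos_of_lt_pi h0 (by linarith)).ne'
  unfold ph pk
  constructor
  · field_simp; ring
  · field_simp; ring

/-- derivative of the excess with respect to `δ` -/
theorem AA_dδ (hB : Smooth B Hd) (h0 : 0 < δ) (h1 : δ < π / 2) :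
    HasDerivAt (fun t => AA (hs B) m t)
      (Real.tan δ * (tp (hs B) Hd m δ + tm (hs B) Hd m δ)) δ := by
  have hc : Real.cos δ ≠ 0 := (Real.cos_pos_of_mem_Ioo ⟨by linarith, h1⟩).ne'
  have c3 := cont_hs hB.body.cpt
  have d1 : HasDerivAt (fun t => hs B (m + t)) (Hd (m + δ)) δ := by
    simpa using (hB.dh (m + δ)).comp_const_add m δ
  have d2 : HasDerivAt (fun t => hs B (m - t)) (-Hd (m - δ)) δ := by
    simpa using (hB.dh (m - δ)).comp_const_sub m δ
  have d3 := Real.hasDerivAt_tan hc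
  have d4 : HasDerivAt (fun t => ∫ φ in (m - t)..(m + t), hs B φ)
      (hs B (m + δ) + hs B (m - δ)) δ := by
    have e : ∀ t, ∫ φ in (m - t)..(m + t), hs B φ
        = (∫ φ in (0 : ℝ)..(m + t), hs B φ) - ∫ φ in (0 : ℝ)..(m - t), hs B φ := by
      intro t
      rw [intervalIntegral.integral_interval_sub_left] <;> exact c3.intervalIntegrable _ _
    simp only [e]
    have f1 : HasDerivAt (fun t => ∫ φ in (0 : ℝ)..(m + t), hs B φ) (hs B (m + δ)) δ := by
      have := (c3.integral_hasStrictDerivAt 0 (m + δ)).hasDerivAt.comp_const_add m δ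
      simpa using this
    have f2 : HasDerivAt (fun t => ∫ φ in (0 : ℝ)..(m - t), hs B φ) (-hs B (m - δ)) δ := by
      have := (c3.integral_hasStrictDerivAt 0 (m - δ)).hasDerivAt.comp_const_sub m δ
      simpa using this
    have := f1.sub f2
    rw [sub_neg_eq_add] at this
    exact this
  have d5 := ((d1.add d2).mul d3).sub d4
  have e : (Hd (m + δ) + -Hd (m - δ)) * Real.tan δ + (hs B (m + δ) + hs B (m - δ)) * (1 / Real.cos δ ^ 2)
      - (hs B (m + δ) + hs B (m - δ)) = Real.tan δ * (tp (hs B) Hd m δ + tm (hs B) Hd m δ) := by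
    obtain ⟨q1, q2⟩ := hsP (m := m) (hs B) h0 h1
    unfold tp tm
    rw [q1, q2, Real.tan_eq_sin_div_cos]
    have := Real.sin_sq_add_cos_sq δ
    field_simp
    linear_combination (-2 * ph (hs B) m δ * Real.cos δ) * this
  have d6 : HasDerivAt (fun t => AA (hs B) m t) ((Hd (m + δ) + -Hd (m - δ)) * Real.tan δ
      + (hs B (m + δ) + hs B (m - δ)) * (1 / Real.cos δ ^ 2)
      - (hs B (m + δ) + hs B (m - δ))) δ := d5
  rw [e] at d6
  exact d6

/-- derivative of the excess with respect to `m` -/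
theorem AA_dm (hB : Smooth B Hd) (h0 : 0 < δ) (h1 : δ < π / 2) :
    HasDerivAt (fun t => AA (hs B) t δ)
      (Real.tan δ * (tp (hs B) Hd m δ - tm (hs B) Hd m δ)) m := by
  have hc : Real.cos δ ≠ 0 := (Real.cos_pos_of_mem_Ioo ⟨by linarith, h1⟩).ne'
  have c3 := cont_hs hB.body.cpt
  have d1 : HasDerivAt (fun t => hs B (t + δ)) (Hd (m + δ)) m := by
    simpa using (hB.dh (m + δ)).comp_add_const m δ
  have d2 : HasDerivAt (fun t => hs B (t - δ)) (Hd (m - δ)) m := by
    simpa using (hB.dh (m - δ)).comp_sub_const m δ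
  have d4 : HasDerivAt (fun t => ∫ φ in (t - δ)..(t + δ), hs B φ)
      (hs B (m + δ) - hs B (m - δ)) m := by
    have e : ∀ t, ∫ φ in (t - δ)..(t + δ), hs B φ
        = (∫ φ in (0 : ℝ)..(t + δ), hs B φ) - ∫ φ in (0 : ℝ)..(t - δ), hs B φ := by
      intro t
      rw [intervalIntegral.integral_interval_sub_left] <;> exact c3.intervalIntegrable _ _
    simp only [e]
    have f1 : HasDerivAt (fun t => ∫ φ in (0 : ℝ)..(t + δ), hs B φ) (hs B (m + δ)) m := by
      have := (c3.integral_hasStrictDerivAt 0 (m + δ)).hasDerivAt.comp_add_const m δ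
      simpa using this
    have f2 : HasDerivAt (fun t => ∫ φ in (0 : ℝ)..(t - δ), hs B φ) (hs B (m - δ)) m := by
      have := (c3.integral_hasStrictDerivAt 0 (m - δ)).hasDerivAt.comp_sub_const m δ
      simpa using this
    exact f1.sub f2
  have d5 := ((d1.add d2).mul_const (Real.tan δ)).sub d4
  have e : (Hd (m + δ) + Hd (m - δ)) * Real.tan δ
      - (hs B (m + δ) - hs B (m - δ)) = Real.tan δ * (tp (hs B) Hd m δ - tm (hs B) Hd m δ) := by
    obtain ⟨q1, q2⟩ := hsP (m := m) (hs B) h0 h1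
    unfold tp tm
    rw [q1, q2, Real.tan_eq_sin_div_cos]
    field_simp
    ring
  have d6 : HasDerivAt (fun t => AA (hs B) t δ) ((Hd (m + δ) + Hd (m - δ)) * Real.tan δ
      - (hs B (m + δ) - hs B (m - δ))) m := d5
  rw [e] at d6
  exact d6

end

end Pool.Agent.X146.Str
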