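import Pool.Agent.X146.Str.Fam

set_option autoImplicit false
open MeasureTheory Metric Set Filter Topology Real

/-! Triangles inscribed in the table and circumscribed about a body of the family. -/

namespace Pool.Agent.X146.Str

open Pool.Agent.Y508

/-- perimeter of a triangle -/
noncomputable def PT (y1 y2 y3 : E2) : ℝ :=
  ∫ θ in (0 : ℝ)..(2 * π), max (ip y1 θ) (max (ip y2 θ) (ip y3 θ))

/-- defect -/
noncomputable def DF (B : Set E2) (y1 y2 y3 : E2) (θ : ℝ) : ℝ :=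
  max (hs B θ) (ip y1 θ) + max (hs B θ) (ip y2 θ) + max (hs B θ) (ip y3 θ) - 2 * hs B θ
    - max (ip y1 θ) (max (ip y2 θ) (ip y3 θ))

variable {B : Set E2} {y1 y2 y3 : E2}

theorem DF_nonneg (θ : ℝ) : 0 ≤ DF B y1 y2 y3 θ := by
  unfold DF
  have a1 := le_max_left (hs B θ) (ip y1 θ)
  have a2 := le_max_left (hs B θ) (ip y2 θ)
  have a3 := le_max_left (hs B θ) (ip y3 θ)
  have b1 := le_max_right (hs B θ) (ip y1 θ)
  have b2 := le_max_right (hs B θ) (ip y2 θ)
  have b3 := le_max_right (hs B θ) (ip y3 θ)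
  have : max (ip y1 θ) (max (ip y2 θ) (ip y3 θ)) ≤ max (hs B θ) (ip y1 θ) + max (hs B θ) (ip y2 θ)
      + max (hs B θ) (ip y3 θ) - 2 * hs B θ :=
    max_le (by linarith) (max_le (by linarith) (by linarith))
  linarith

theorem DF_cont (hB : Body B) : Continuous (DF B y1 y2 y3) := by
  unfold DF
  have c0 := cont_hs hB.cpt
  have c1 := cont_ip y1
  have c2 := cont_ip y2
  have c3 := cont_ip y3
  fun_prop

theorem DF_per (θ : ℝ) : DF B y1 y2 y3 (θ + 2 * π) = DF B y1 y2 y3 θ := by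
  unfold DF
  rw [hs_two_pi, ip_two_pi, ip_two_pi, ip_two_pi]

theorem DF_int (hB : Body B) : ∫ θ in (0 : ℝ)..(2 * π), DF B y1 y2 y3 θ
    = FF (hs B) y1 + FF (hs B) y2 + FF (hs B) y3 - 2 * W B - PT y1 y2 y3 := by
  unfold DF FF W PT
  have c0 := cont_hs hB.cpt
  have c1 := cont_ip y1
  have c2 := cont_ip y2
  have c3 := cont_ip y3
  rw [intervalIntegral.integral_sub (Continuous.intervalIntegrable (by fun_prop) _ _)
      (Continuous.intervalIntegrable (by fun_prop) _ _),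
    intervalIntegral.integral_sub (Continuous.intervalIntegrable (by fun_prop) _ _)
      (Continuous.intervalIntegrable (by fun_prop) _ _),
    intervalIntegral.integral_add (Continuous.intervalIntegrable (by fun_prop) _ _)
      (Continuous.intervalIntegrable (by fun_prop) _ _),
    intervalIntegral.integral_add (Continuous.intervalIntegrable (by fun_prop) _ _)
      (Continuous.intervalIntegrable (by fun_prop) _ _), intervalIntegral.integral_const_mul]

theorem tri_le (hB : Body B) {C : ℝ} (h1 : FF (hs B) y1 = W B + C) (h2 : FF (hs B) y2 = W B + C)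
    (h3 : FF (hs B) y3 = W B + C) : PT y1 y2 y3 ≤ W B + 3 * C ∧
      (W B + 3 * C ≤ PT y1 y2 y3 → ∀ θ, DF B y1 y2 y3 θ = 0) := by
  have hi := DF_int hB (y1 := y1) (y2 := y2) (y3 := y3)
  rw [h1, h2, h3] at hi
  have hn : 0 ≤ ∫ θ in (0 : ℝ)..(2 * π), DF B y1 y2 y3 θ :=
    intervalIntegral.integral_nonneg (by positivity) fun θ _ => DF_nonneg θ
  refine ⟨by linarith, fun h θ => ?_⟩
  by_contra hne
  have hpos : 0 < DF B y1 y2 y3 θ := lt_of_le_of_ne (DF_nonneg θ) (Ne.symm hne)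
  have h4 : 0 < ∫ φ in θ..(θ + 2 * π), DF B y1 y2 y3 φ := by
    apply intervalIntegral.integral_pos (by linarith [Real.two_pi_pos]) (DF_cont hB).continuousOn
    · intro φ _
      exact DF_nonneg φ
    · exact ⟨θ, ⟨le_rfl, by linarith [Real.two_pi_pos]⟩, hpos⟩
  rw [int_shift DF_per] at h4
  linarith

variable {K : Set E2} {M : ℝ} {k : ℝ → ℝ}

theorem tri_data (hK : Body K) {μ C : ℝ} {δ g : ℝ → ℝ} (hc : Cau K M k μ C δ g) {x : ℝ}
    (h3 : g (g (g x)) = x + 2 * π) : ∃ y1 y2 y3 : E2, FF (hs K) y1 = M ∧ FF (hs K) y2 = M ∧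
      FF (hs K) y3 = M ∧ PT y1 y2 y3 = W (KS K μ) + 3 * C ∧
      ip y1 (g x) = hs (KS K μ) (g x) ∧ ip y2 (g x) = hs (KS K μ) (g x) ∧
      ip y3 (g x) ≤ hs (KS K μ) (g x) := by
  have hB := KS_body hK hc.rel.lo
  obtain ⟨m1, p1, q1⟩ := hc.gx x
  obtain ⟨m2, p2, q2⟩ := hc.gx (g x)
  obtain ⟨m3, p3, q3⟩ := hc.gx (g (g x))
  have r1 := hc.circ.lo x
  have r2 := hc.circ.lo (g x)
  have r3 := hc.circ.lo (g (g x))
  rw [h3] at q3 r3
  set x2 := g x with hx2
  set x3 := g x2 with hx3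
  have hF : ∀ m, FF (hs (KS K μ)) (pp (hs (KS K μ)) m (δ m)) = W (KS K μ) + C := fun m => by
    rw [FF_pp hB (hc.op.pos m) (hc.op.lt m), hc.op.eq]
  have hin : ∀ m φ, m - δ m ≤ φ → φ ≤ m + δ m → hs (KS K μ) φ ≤ ip (pp (hs (KS K μ)) m (δ m)) φ :=
    fun m φ => cap_in hB (hc.op.pos m) (hc.op.lt m)
  have hout : ∀ m φ, m + δ m ≤ φ → φ ≤ m - δ m + 2 * π →
      ip (pp (hs (KS K μ)) m (δ m)) φ ≤ hs (KS K μ) φ :=
    fun m φ => cap_out hB (hc.op.pos m) (hc.op.lt m)
  have hout' : ∀ m φ, m + δ m ≤ φ + 2 * π → φ + 2 * π ≤ m - δ m + 2 * π →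
      ip (pp (hs (KS K μ)) m (δ m)) φ ≤ hs (KS K μ) φ := by
    intro m φ a b
    have := hout m (φ + 2 * π) a b
    rwa [ip_two_pi, hs_two_pi] at this
  refine ⟨pp (hs (KS K μ)) m1 (δ m1), pp (hs (KS K μ)) m2 (δ m2), pp (hs (KS K μ)) m3 (δ m3),
    (hc.rel.lvl _).1 (hF m1), (hc.rel.lvl _).1 (hF m2), (hc.rel.lvl _).1 (hF m3), ?_, ?_, ?_, ?_⟩
  · have hz : ∀ φ ∈ uIcc x (x + 2 * π), DF (KS K μ) (pp (hs (KS K μ)) m1 (δ m1))
        (pp (hs (KS K μ)) m2 (δ m2)) (pp (hs (KS K μ)) m3 (δ m3)) φ = 0 := by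
      intro φ hφ
      rw [uIcc_of_le (by linarith [Real.two_pi_pos])] at hφ
      obtain ⟨ha, hb⟩ := hφ
      unfold DF
      rcases le_total φ x2 with c2 | c2
      · have e1 := hin m1 φ (by linarith) (by linarith)
        have e2 := hout' m2 φ (by linarith) (by linarith)
        have e3 := hout' m3 φ (by linarith) (by linarith)
        rw [max_eq_right e1, max_eq_left e2, max_eq_left e3,
          max_eq_left (max_le (e2.trans e1) (e3.trans e1))]
        ring
      · rcases le_total φ x3 with c3 | c3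
        · have e1 := hout m1 φ (by linarith) (by linarith)
          have e2 := hin m2 φ (by linarith) (by linarith)
          have e3 := hout' m3 φ (by linarith) (by linarith)
          rw [max_eq_left e1, max_eq_right e2, max_eq_left e3, max_eq_left (e3.trans e2),
            max_eq_right (e1.trans e2)]
          ring
        · have e1 := hout m1 φ (by linarith) (by linarith)
          have e2 := hout m2 φ (by linarith) (by linarith)
          have e3 := hin m3 φ (by linarith) (by linarith)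
          rw [max_eq_left e1, max_eq_left e2, max_eq_right e3, max_eq_right (e2.trans e3),
            max_eq_right (e1.trans e3)]
          ring
    have hi := DF_int hB (y1 := pp (hs (KS K μ)) m1 (δ m1)) (y2 := pp (hs (KS K μ)) m2 (δ m2))
      (y3 := pp (hs (KS K μ)) m3 (δ m3))
    rw [hF, hF, hF, ← int_shift DF_per x, intervalIntegral.integral_congr hz] at hi
    simp only [intervalIntegral.integral_zero] at hi
    linarith
  · have := ip_pp_b (m := m1) (hs (KS K μ)) (hc.op.pos m1) (hc.op.lt m1)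
    rw [← q1] at this
    exact this
  · have := ip_pp_a (m := m2) (hs (KS K μ)) (hc.op.pos m2) (hc.op.lt m2)
    rw [← p2] at this
    exact this
  · exact hout' m3 _ (by linarith) (by linarith)

theorem tri_cmp {B' : Set E2} {v θ : ℝ} (h1 : ip y1 θ = v) (h2 : ip y2 θ = v) (h3 : ip y3 θ ≤ v)
    (hz : DF B' y1 y2 y3 θ = 0) : v ≤ hs B' θ := by
  unfold DF at hz
  rw [h1, h2, max_eq_left (a := v) (b := ip y3 θ) h3, max_self] at hz
  by_contra hcon
  push Not at hcon
  have a1 := le_max_right (hs B' θ) v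
  have a3 := le_max_left (hs B' θ) (ip y3 θ)
  linarith

theorem tri_unique (hK : Body K) {μ C μ' C' : ℝ} {δ g δ' g' : ℝ → ℝ}
    (hc : Cau K M k μ C δ g) (hc' : Cau K M k μ' C' δ' g') {x x' : ℝ}
    (h3 : g (g (g x)) = x + 2 * π) (h3' : g' (g' (g' x')) = x' + 2 * π) : μ = μ' := by
  have hB := KS_body hK hc.rel.lo
  have hB' := KS_body hK hc'.rel.lo
  obtain ⟨y1, y2, y3, a1, a2, a3, a4, a5, a6, a7⟩ := tri_data hK hc h3
  obtain ⟨z1, z2, z3, b1, b2, b3, b4, b5, b6, b7⟩ := tri_data hK hc' h3'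
  obtain ⟨s1, s2⟩ := tri_le hB' ((hc'.rel.lvl y1).2 a1) ((hc'.rel.lvl y2).2 a2)
    ((hc'.rel.lvl y3).2 a3)
  obtain ⟨t1, t2⟩ := tri_le hB ((hc.rel.lvl z1).2 b1) ((hc.rel.lvl z2).2 b2)
    ((hc.rel.lvl z3).2 b3)
  have u1 := tri_cmp a5 a6 a7 (s2 (by linarith) _)
  have u2 := tri_cmp b5 b6 b7 (t2 (by linarith) _)
  rcases lt_trichotomy μ μ' with h | h | h
  · exact absurd u2 (not_le.2 (hs_lt hK hc.rel.lo h _))
  · exact h
  · exact absurd u1 (not_le.2 (hs_lt hK hc'.rel.lo h _))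

end Pool.Agent.X146.Str
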